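import Mathlib

/-! Determinant of a simplex on `d + 1` of `d + 3` unit vectors, via the Gale vectors. -/

namespace Pool.Agent.Lib.MP_45a79b_co

open Finset Matrix

theorem prod_le_mean_pow {ρ : Type*} [Fintype ρ] [Nonempty ρ] (z : ρ → ℝ) (hz : ∀ r, 0 ≤ z r) :
    ∏ r, z r ≤ ((∑ r, z r) / Fintype.card ρ) ^ Fintype.card ρ := by
  have hc : (0 : ℝ) < Fintype.card ρ := by exact_mod_cast Fintype.card_pos
  have h := Real.geom_mean_le_arith_mean_weighted Finset.univ
    (fun _ => ((Fintype.card ρ : ℝ))⁻¹) z (fun _ _ => by positivity)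
    (by rw [Finset.sum_const, Finset.card_univ, nsmul_eq_mul]; field_simp) (fun r _ => hz r)
  rw [Real.finsetProd_rpow _ _ (fun r _ => hz r), ← Finset.mul_sum] at h
  have h0 : 0 ≤ ∏ r, z r := Finset.prod_nonneg fun r _ => hz r
  have h1 := pow_le_pow_left₀ (Real.rpow_nonneg h0 _) h (Fintype.card ρ)
  rw [Real.rpow_inv_natCast_pow h0 (Fintype.card_ne_zero)] at h1
  rwa [div_eq_inv_mul]

theorem det_gram_le {ρ ι : Type*} [Fintype ρ] [DecidableEq ρ] [Nonempty ρ] [Fintype ι]
    (A : Matrix ρ ι ℝ) :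
    (A * Aᵀ).det ≤ ((∑ r, ∑ l, A r l ^ 2) / Fintype.card ρ) ^ Fintype.card ρ := by
  have hP : (A * Aᵀ).PosSemidef := by
    have := Matrix.posSemidef_self_mul_conjTranspose A
    rwa [Matrix.conjTranspose_eq_transpose_of_trivial] at this
  have h1 := hP.isHermitian.det_eq_prod_eigenvalues
  have h2 := hP.isHermitian.trace_eq_sum_eigenvalues
  have h3 : (A * Aᵀ).trace = ∑ r, ∑ l, A r l ^ 2 := by
    simp [Matrix.trace, Matrix.mul_apply, pow_two]
  simp only [RCLike.ofReal_real_eq_id, id] at h1 h2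
  rw [h1, ← h3, h2]
  exact prod_le_mean_pow _ hP.eigenvalues_nonneg

theorem det_sq_eq {ρ ι : Type*} [Fintype ρ] [DecidableEq ρ] [Fintype ι] [DecidableEq ι]
    (A : Matrix ρ ι ℝ) (x y : ι → ℝ) (hx : A *ᵥ x = 0) (hy : A *ᵥ y = 0)
    (hx2 : ∑ l, x l ^ 2 = 1) (hy2 : ∑ l, y l ^ 2 = 1) (hxy : ∑ l, x l * y l = 0)
    (E : ρ ⊕ Fin 2 ≃ ι) :
    (A.submatrix id (fun r => E (Sum.inl r))).det ^ 2
      = (A * Aᵀ).det * (x (E (Sum.inr 0)) * y (E (Sum.inr 1))
          - y (E (Sum.inr 0)) * x (E (Sum.inr 1))) ^ 2 := by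
  set K : Matrix (Fin 2) ι ℝ := Matrix.of fun r l => ![x l, y l] r with hK
  set D : Matrix (Fin 2) ι ℝ := Matrix.of fun r l => if l = E (Sum.inr r) then 1 else 0 with hD
  have hAK : A * Kᵀ = 0 := by
    ext r c
    fin_cases c
    · simpa [Matrix.mul_apply, hK, Matrix.mulVec, dotProduct] using congrFun hx r
    · simpa [Matrix.mul_apply, hK, Matrix.mulVec, dotProduct] using congrFun hy r
  have hKA : K * Aᵀ = 0 := by
    have := congrArg Matrix.transpose hAK
    simpa using this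
  have hKK : K * Kᵀ = 1 := by
    ext r c
    fin_cases r <;> fin_cases c
    · simpa [Matrix.mul_apply, hK, pow_two] using hx2
    · simpa [Matrix.mul_apply, hK] using hxy
    · simpa [Matrix.mul_apply, hK, mul_comm] using hxy
    · simpa [Matrix.mul_apply, hK, pow_two] using hy2
  have hDK : (D * Kᵀ).det = x (E (Sum.inr 0)) * y (E (Sum.inr 1))
          - y (E (Sum.inr 0)) * x (E (Sum.inr 1)) := by
    rw [Matrix.det_fin_two]
    simp [Matrix.mul_apply, hK, hD]
  set M := (Matrix.fromRows A K).submatrix id E with hM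
  set M' := (Matrix.fromRows A D).submatrix id E with hM'
  have h1 : M * Mᵀ = Matrix.fromBlocks (A * Aᵀ) 0 0 1 := by
    rw [hM, Matrix.transpose_submatrix, Matrix.submatrix_mul_equiv, Matrix.transpose_fromRows,
      Matrix.fromRows_mul_fromCols, hAK, hKA, hKK]
    rfl
  have h2 : M' * Mᵀ = Matrix.fromBlocks (A * Aᵀ) 0 (D * Aᵀ) (D * Kᵀ) := by
    rw [hM, hM', Matrix.transpose_submatrix, Matrix.submatrix_mul_equiv, Matrix.transpose_fromRows,
      Matrix.fromRows_mul_fromCols, hAK]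
    rfl
  have h3 : M' = Matrix.fromBlocks (A.submatrix id (fun r => E (Sum.inl r)))
      (A.submatrix id (fun r => E (Sum.inr r))) 0 1 := by
    ext r c
    rcases r with r | r <;> rcases c with c | c
    · simp [hM']
    · simp [hM']
    · simp [hM', hD]
    · simp [hM', hD, Matrix.one_apply, eq_comm]
  have h4 : M.det ^ 2 = (A * Aᵀ).det := by
    have := congrArg Matrix.det h1
    rw [Matrix.det_mul, Matrix.det_transpose, Matrix.det_fromBlocks_zero₁₂] at this
    rw [pow_two, this]; simp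
  have h5 : M'.det * M.det = (A * Aᵀ).det * (D * Kᵀ).det := by
    have := congrArg Matrix.det h2
    rwa [Matrix.det_mul, Matrix.det_transpose, Matrix.det_fromBlocks_zero₁₂] at this
  have h6 : M'.det = (A.submatrix id (fun r => E (Sum.inl r))).det := by
    rw [h3, Matrix.det_fromBlocks_zero₂₁]; simp
  rw [← h6, ← hDK]
  by_cases hG : (A * Aᵀ).det = 0
  · rw [hG, zero_mul]
    obtain ⟨u, hu0, hu⟩ := Matrix.exists_vecMul_eq_zero_iff.2 hG
    have h7 : u ᵥ* A = 0 := by
      have h8 : (u ᵥ* A) ⬝ᵥ (u ᵥ* A) = 0 := by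
        have : (u ᵥ* (A * Aᵀ)) ⬝ᵥ u = 0 := by rw [hu]; simp
        rwa [← Matrix.vecMul_vecMul, Matrix.vecMul_transpose, dotProduct_comm,
          Matrix.dotProduct_mulVec] at this
      exact dotProduct_self_eq_zero.1 h8
    have h9 : (A.submatrix id (fun r => E (Sum.inl r))).det = 0 := by
      apply Matrix.exists_vecMul_eq_zero_iff.1
      refine ⟨u, hu0, ?_⟩
      ext c
      simpa [Matrix.vecMul, dotProduct] using congrFun h7 (E (Sum.inl c))
    rw [h6, h9]; simp
  · have h7 : (A * Aᵀ).det * M'.det ^ 2 = (A * Aᵀ).det * ((A * Aᵀ).det * (D * Kᵀ).det ^ 2) := by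
      calc (A * Aᵀ).det * M'.det ^ 2 = (M'.det * M.det) ^ 2 := by rw [← h4]; ring
        _ = _ := by rw [h5]; ring
    exact mul_left_cancel₀ hG h7

theorem det_simplex_bound {ι : Type*} [Fintype ι] [DecidableEq ι] {d : ℕ} (hd : 0 < d)
    (hcard : Fintype.card ι = d + 3) (p : ι → Fin d → ℝ) (hp : ∀ l, ∑ s, p l s ^ 2 = 1)
    (x y : ι → ℝ) (hx0 : ∑ l, x l = 0) (hy0 : ∑ l, y l = 0)
    (hx : ∀ s, ∑ l, x l * p l s = 0) (hy : ∀ s, ∑ l, y l * p l s = 0)
    (hx2 : ∑ l, x l ^ 2 = 1) (hy2 : ∑ l, y l ^ 2 = 1) (hxy : ∑ l, x l * y l = 0)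
    (i j k : ι) (hij : i ≠ j) (hik : i ≠ k) (hjk : j ≠ k)
    (e : Fin d → ι) (he : Function.Injective e) (hei : ∀ t, e t ≠ i) (hej : ∀ t, e t ≠ j)
    (hek : ∀ t, e t ≠ k) :
    (Matrix.of fun s t => p (e t) s - p i s).det ^ 2
      ≤ d * (((d : ℝ) + 3) / d) ^ (d + 1) * (x j * y k - y j * x k) ^ 2 := by
  have hd' : (0 : ℝ) < d := by exact_mod_cast hd
  set τ : ℝ := (Real.sqrt d)⁻¹ with hτ
  have hτ2 : τ ^ 2 = (d : ℝ)⁻¹ := by rw [hτ, inv_pow, Real.sq_sqrt hd'.le]
  set A : Matrix (Unit ⊕ Fin d) ι ℝ :=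
    Matrix.of fun r l => Sum.elim (fun _ => τ) (fun s => p l s) r with hA
  set f : (Unit ⊕ Fin d) ⊕ Fin 2 → ι :=
    Sum.elim (Sum.elim (fun _ => i) e) ![j, k] with hf
  have hfi : Function.Injective f := by
    rintro ((a | a) | a) ((b | b) | b) h
    · rfl
    · exact absurd h.symm (hei b)
    · fin_cases b
      · exact absurd h hij
      · exact absurd h hik
    · exact absurd h (hei a)
    · rw [he h]
    · fin_cases b
      · exact absurd h (hej a)
      · exact absurd h (hek a)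
    · fin_cases a
      · exact absurd h.symm hij
      · exact absurd h.symm hik
    · fin_cases a
      · exact absurd h.symm (hej b)
      · exact absurd h.symm (hek b)
    · fin_cases a <;> fin_cases b
      · rfl
      · exact absurd h hjk
      · exact absurd h.symm hjk
      · rfl
  have hfb : Function.Bijective f := by
    rw [Fintype.bijective_iff_injective_and_card]
    refine ⟨hfi, ?_⟩
    simp [hcard]; ring
  set E := Equiv.ofBijective f hfb with hE
  have hAx : A *ᵥ x = 0 := by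
    ext r
    rcases r with r | r
    · simp [hA, Matrix.mulVec, dotProduct, ← Finset.mul_sum, hx0]
    · simpa [hA, Matrix.mulVec, dotProduct, mul_comm] using hx r
  have hAy : A *ᵥ y = 0 := by
    ext r
    rcases r with r | r
    · simp [hA, Matrix.mulVec, dotProduct, ← Finset.mul_sum, hy0]
    · simpa [hA, Matrix.mulVec, dotProduct, mul_comm] using hy r
  have h1 := det_sq_eq A x y hAx hAy hx2 hy2 hxy E
  have h2 : A.submatrix id (fun r => E (Sum.inl r))
      = Matrix.fromBlocks (Matrix.of fun _ _ => τ) 0 (Matrix.of fun s _ => p i s)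
          (Matrix.of fun s t => p (e t) s - p i s)
        * Matrix.fromBlocks (1 : Matrix Unit Unit ℝ) (Matrix.of fun _ _ => (1 : ℝ)) 0 1 := by
    rw [Matrix.fromBlocks_multiply]
    ext r c
    rcases r with r | r <;> rcases c with c | c <;> simp [hA, hE, hf, Matrix.mul_apply]
  have h3 : (A.submatrix id (fun r => E (Sum.inl r))).det
      = τ * (Matrix.of fun s t => p (e t) s - p i s).det := by
    rw [h2, Matrix.det_mul, Matrix.det_fromBlocks_zero₁₂, Matrix.det_fromBlocks_zero₂₁]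
    simp
  have h4 := det_gram_le A
  have h5 : ∑ r, ∑ l, A r l ^ 2 = ((d : ℝ) + 3) * ((d : ℝ)⁻¹ + 1) := by
    rw [Finset.sum_comm]
    have : ∀ l, ∑ r, A r l ^ 2 = (d : ℝ)⁻¹ + 1 := by
      intro l
      rw [Fintype.sum_sum_type]
      simp [hA, hτ2, hp l]
    simp_rw [this]
    rw [Finset.sum_const, Finset.card_univ, hcard, nsmul_eq_mul]
    push_cast; ring
  have h6 : Fintype.card (Unit ⊕ Fin d) = d + 1 := by simp; ring
  rw [h5, h6] at h4
  have h7 : ((d : ℝ) + 3) * ((d : ℝ)⁻¹ + 1) / ((d + 1 : ℕ) : ℝ) = ((d : ℝ) + 3) / d := by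
    push_cast; field_simp; ring
  rw [h7] at h4
  have h8 : E (Sum.inr 0) = j := by simp [hE, hf]
  have h9 : E (Sum.inr 1) = k := by simp [hE, hf]
  rw [h3, h8, h9, mul_pow, hτ2] at h1
  have h10 : (Matrix.of fun s t => p (e t) s - p i s).det ^ 2
      = d * ((A * Aᵀ).det * (x j * y k - y j * x k) ^ 2) := by
    rw [← h1]; field_simp
  rw [h10, mul_assoc]
  gcongr

end Pool.Agent.Lib.MP_45a79b_co
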