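import Mathlib

/-! Discrete Wirtinger inequality on the cycle `ZMod N`. -/

namespace Pool.Agent.Lib.MP_45a79b_co

open Finset

theorem parseval {N : ℕ} [NeZero N] (f : ZMod N → ℂ) :
    ∑ k, ‖ZMod.dft f k‖ ^ 2 = N * ∑ j, ‖f j‖ ^ 2 := by
  have key : ∑ k, (ZMod.dft f k * (starRingEnd ℂ) (ZMod.dft f k))
      = N * ∑ j, f j * (starRingEnd ℂ) (f j) := by
    have h1 : ∀ k : ZMod N, ZMod.dft f k * (starRingEnd ℂ) (ZMod.dft f k)
        = ∑ j, ∑ l, f j * (starRingEnd ℂ) (f l) * ZMod.stdAddChar (k * (l - j)) := by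
      intro k
      rw [ZMod.dft_apply, map_sum, Finset.sum_mul_sum]
      refine Finset.sum_congr rfl fun j _ => Finset.sum_congr rfl fun l _ => ?_
      have h2 : (starRingEnd ℂ) (ZMod.stdAddChar (-(l * k))) = ZMod.stdAddChar (l * k) := by
        rw [← AddChar.map_neg_eq_conj, neg_neg]
      have h3 : (ZMod.stdAddChar (k * (l - j)) : ℂ)
          = ZMod.stdAddChar (-(j * k)) * ZMod.stdAddChar (l * k) := by
        rw [← AddChar.map_add_eq_mul]; congr 1; ring
      simp only [smul_eq_mul, map_mul]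
      rw [h2, h3]; ring
    simp_rw [h1]
    rw [Finset.sum_comm]
    have h4 : ∀ j : ZMod N, ∑ k : ZMod N, ∑ l, f j * (starRingEnd ℂ) (f l) *
        ZMod.stdAddChar (k * (l - j)) = N * (f j * (starRingEnd ℂ) (f j)) := by
      intro j
      rw [Finset.sum_comm]
      have h5 : ∀ l : ZMod N, ∑ k : ZMod N, f j * (starRingEnd ℂ) (f l) *
          ZMod.stdAddChar (k * (l - j)) = if l = j then N * (f j * (starRingEnd ℂ) (f j)) else 0 := by
        intro l
        rw [← Finset.mul_sum, AddChar.sum_mulShift _ (ZMod.isPrimitive_stdAddChar N)]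
        by_cases h : l = j
        · subst h; simp [ZMod.card, mul_comm]
        · simp [h, sub_ne_zero.mpr h]
      simp_rw [h5]
      simp
    simp_rw [h4]
    rw [Finset.mul_sum]
  have h6 : ∀ z : ℂ, z * (starRingEnd ℂ) z = ((‖z‖ ^ 2 : ℝ) : ℂ) := by
    intro z; rw [Complex.mul_conj, Complex.normSq_eq_norm_sq]
  simp_rw [h6] at key
  exact_mod_cast key

theorem sin_le_sin_mul {N : ℕ} (k : ℕ) (hk1 : 1 ≤ k) (hk2 : k < N) :
    Real.sin (Real.pi / N) ≤ Real.sin (Real.pi * k / N) := by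
  have hN : (0 : ℝ) < N := by exact_mod_cast (by omega : 0 < N)
  have hpi := Real.pi_pos
  have hk1' : (1 : ℝ) ≤ k := by exact_mod_cast hk1
  have hk2' : (k : ℝ) + 1 ≤ N := by exact_mod_cast hk2
  have h0 : -(Real.pi / 2) ≤ Real.pi / N := by
    have : 0 ≤ Real.pi / N := by positivity
    linarith
  by_cases h : Real.pi * k / N ≤ Real.pi / 2
  · apply Real.sin_le_sin_of_le_of_le_pi_div_two h0 h
    apply div_le_div_of_nonneg_right _ hN.le
    nlinarith
  · rw [← Real.sin_pi_sub (Real.pi * k / N)]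
    apply Real.sin_le_sin_of_le_of_le_pi_div_two h0 (by linarith)
    rw [le_sub_iff_add_le, ← add_div, div_le_iff₀ hN]
    nlinarith

theorem norm_char_sub_one {N : ℕ} [NeZero N] (k : ZMod N) (hk : k ≠ 0) :
    4 * Real.sin (Real.pi / N) ^ 2 ≤ ‖(ZMod.stdAddChar k : ℂ) - 1‖ ^ 2 := by
  have hk1 : 1 ≤ k.val := by
    rw [Nat.one_le_iff_ne_zero]; exact fun h => hk ((ZMod.val_eq_zero k).1 h)
  have hk2 := ZMod.val_lt k
  have hN : (0 : ℝ) < N := by exact_mod_cast (by omega : 0 < N)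
  have h1 : (ZMod.stdAddChar k : ℂ) = Complex.exp (Complex.I * ((2 * Real.pi * k.val / N : ℝ) : ℂ)) := by
    rw [ZMod.stdAddChar_apply, ZMod.toCircle_apply]
    congr 1
    push_cast
    ring
  rw [h1, Complex.norm_exp_I_mul_ofReal_sub_one]
  have h2 : 2 * Real.pi * k.val / N / 2 = Real.pi * k.val / N := by ring
  rw [h2, Real.norm_eq_abs, sq_abs]
  have h3 := sin_le_sin_mul k.val hk1 hk2
  have h4 : 0 ≤ Real.sin (Real.pi / N) := by
    apply Real.sin_nonneg_of_nonneg_of_le_pi (by positivity)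
    apply div_le_self Real.pi_pos.le
    exact_mod_cast (by omega : 1 ≤ N)
  nlinarith

theorem wirtinger {N : ℕ} [NeZero N] (u : ZMod N → ℝ) (hu : ∑ j, u j = 0) :
    4 * Real.sin (Real.pi / N) ^ 2 * ∑ j, u j ^ 2 ≤ ∑ j, (u (j + 1) - u j) ^ 2 := by
  set f : ZMod N → ℂ := fun j => (u j : ℂ) with hf
  set g : ZMod N → ℂ := fun j => ((u (j + 1) - u j : ℝ) : ℂ) with hg
  have hN : (0 : ℝ) < N := by exact_mod_cast (NeZero.pos N)
  have h1 : ∀ k, ZMod.dft g k = (ZMod.stdAddChar k - 1) * ZMod.dft f k := by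
    intro k
    rw [ZMod.dft_apply, ZMod.dft_apply, sub_mul, one_mul, Finset.mul_sum]
    have h2 : ∑ j, ZMod.stdAddChar k * (ZMod.stdAddChar (-(j * k)) • f j)
        = ∑ j, ZMod.stdAddChar (-(j * k)) • f (j + 1) := by
      rw [← Equiv.sum_comp (Equiv.addRight (1 : ZMod N))]
      refine Finset.sum_congr rfl fun j _ => ?_
      simp only [Equiv.coe_addRight, smul_eq_mul]
      rw [← mul_assoc, ← AddChar.map_add_eq_mul]
      congr 2; ring
    rw [h2, ← Finset.sum_sub_distrib]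
    refine Finset.sum_congr rfl fun j _ => ?_
    simp only [hf, hg, smul_eq_mul]
    push_cast; ring
  have h0 : ZMod.dft f 0 = 0 := by
    rw [ZMod.dft_apply_zero]
    simp only [hf]
    exact_mod_cast hu
  have h3 : ∀ k, 4 * Real.sin (Real.pi / N) ^ 2 * ‖ZMod.dft f k‖ ^ 2 ≤ ‖ZMod.dft g k‖ ^ 2 := by
    intro k
    by_cases hk : k = 0
    · subst hk; rw [h0]; simp
    · rw [h1, norm_mul, mul_pow]
      exact mul_le_mul_of_nonneg_right (norm_char_sub_one k hk) (by positivity)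
  have h4 := Finset.sum_le_sum fun k (_ : k ∈ Finset.univ) => h3 k
  rw [← Finset.mul_sum, parseval, parseval] at h4
  have h5 : ∀ j, ‖f j‖ ^ 2 = u j ^ 2 := by intro j; simp [hf]
  have h6 : ∀ j, ‖g j‖ ^ 2 = (u (j + 1) - u j) ^ 2 := by
    intro j; simp only [hg]; rw [Complex.norm_real, Real.norm_eq_abs, sq_abs]
  simp_rw [h5, h6] at h4
  have h7 : (N : ℝ) * (4 * Real.sin (Real.pi / N) ^ 2 * ∑ j, u j ^ 2)
      ≤ N * ∑ j, (u (j + 1) - u j) ^ 2 := by linarith
  exact le_of_mul_le_mul_left h7 hN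

end Pool.Agent.Lib.MP_45a79b_co
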