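import Mathlib
import Pool.Agent.Lib.MP_45a79b_co.Wirtinger

/-! The staircase bilinear form of a cyclic Gale diagram is bounded by `1 / (2 sin (π / n))`. -/

namespace Pool.Agent.Lib.MP_45a79b_co

open Finset

theorem sum_zmod_val (m : ℕ) (F : ℕ → ℝ) :
    ∑ j : ZMod (2 * m + 1), F j.val = ∑ r ∈ range (2 * m + 1), F r :=
  Fin.sum_univ_eq_sum_range F (2 * m + 1)

theorem sum_zmod_cast (m : ℕ) (F : ZMod (2 * m + 1) → ℝ) :
    ∑ r ∈ range (2 * m + 1), F (r : ZMod (2 * m + 1)) = ∑ j, F j := by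
  rw [← sum_zmod_val m (fun r => F (r : ZMod (2 * m + 1)))]
  simp

/-- The staircase sum. -/
noncomputable def stair (m : ℕ) (x y : ZMod (2 * m + 1) → ℝ) : ℝ :=
  ∑ j ∈ Icc 1 m, ∑ k ∈ Icc (m + 1) (m + j),
    (x (j : ZMod (2 * m + 1)) * y (k : ZMod (2 * m + 1))
      - y (j : ZMod (2 * m + 1)) * x (k : ZMod (2 * m + 1)))

theorem stair_eq (m : ℕ) (x y : ZMod (2 * m + 1) → ℝ) (hy : ∑ j, y j = 0) :
    stair m x y = ∑ j : ZMod (2 * m + 1),
      x j * ∑ r ∈ range j.val, y ((r + m + 1 : ℕ) : ZMod (2 * m + 1)) := by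
  set Y : ℕ → ℝ := fun s => ∑ r ∈ range s, y ((r + m + 1 : ℕ) : ZMod (2 * m + 1)) with hY
  have hYn : Y (2 * m + 1) = 0 := by
    simp only [hY]
    have := sum_zmod_cast m (fun j => y (j + ((m + 1 : ℕ) : ZMod (2 * m + 1))))
    rw [← hy, ← Equiv.sum_comp (Equiv.addRight ((m + 1 : ℕ) : ZMod (2 * m + 1)))]
    simp only [Equiv.coe_addRight]
    rw [← this]
    refine Finset.sum_congr rfl fun r _ => ?_
    congr 1; push_cast; ring
  have h1 : ∑ j : ZMod (2 * m + 1), x j * Y j.val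
      = ∑ r ∈ range (2 * m + 1), x (r : ZMod (2 * m + 1)) * Y r := by
    rw [← sum_zmod_val m (fun r => x (r : ZMod (2 * m + 1)) * Y r)]
    simp
  show _ = ∑ j : ZMod (2 * m + 1), x j * Y j.val
  rw [h1]
  have h2 : range (2 * m + 1) = insert 0 (Icc 1 m ∪ Icc (m + 1) (2 * m)) := by
    ext r; simp only [mem_range, mem_insert, mem_union, mem_Icc]; omega
  have h3 : Disjoint (Icc 1 m) (Icc (m + 1) (2 * m)) := by
    rw [Finset.disjoint_left]; intro r h h'; simp only [mem_Icc] at h h'; omega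
  rw [h2, Finset.sum_insert (by simp), Finset.sum_union h3]
  have h4 : Y 0 = 0 := by simp [hY]
  rw [h4, mul_zero, zero_add]
  unfold stair
  simp_rw [Finset.sum_sub_distrib]
  rw [sub_eq_add_neg]
  congr 1
  · refine Finset.sum_congr rfl fun j _ => ?_
    rw [← Finset.mul_sum]
    congr 1
    simp only [hY]
    symm
    apply Finset.sum_bij (fun r _ => r + m + 1)
    · intro r hr; simp only [mem_range, mem_Icc] at hr ⊢; omega
    · intro r _ s _ h; omega
    · intro k hk; simp only [mem_range, mem_Icc] at hk ⊢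
      exact ⟨k - m - 1, by omega, by omega⟩
    · intro r _; rfl
  · rw [Finset.sum_comm' (t' := Icc (m + 1) (2 * m)) (s' := fun k => Icc (k - m) m)]
    · rw [← Finset.sum_neg_distrib]
      refine Finset.sum_congr rfl fun k hk => ?_
      simp only [mem_Icc] at hk
      rw [← Finset.sum_mul, mul_comm, ← mul_neg]
      congr 1
      have h5 : Y (2 * m + 1) = Y k + ∑ r ∈ Ico k (2 * m + 1),
          y ((r + m + 1 : ℕ) : ZMod (2 * m + 1)) := by
        simp only [hY]
        rw [Finset.sum_range_add_sum_Ico _ (by omega)]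
      have h6 : ∑ r ∈ Ico k (2 * m + 1), y ((r + m + 1 : ℕ) : ZMod (2 * m + 1))
          = ∑ j ∈ Icc (k - m) m, y (j : ZMod (2 * m + 1)) := by
        symm
        apply Finset.sum_bij (fun j _ => j + m)
        · intro r hr; simp only [mem_Ico, mem_Icc] at hr ⊢; omega
        · intro r _ s _ h; omega
        · intro r hr; simp only [mem_Ico, mem_Icc] at hr ⊢
          exact ⟨r - m, by omega, by omega⟩
        · intro j _
          congr 1
          have : j + m + m + 1 = j + (2 * m + 1) := by ring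
          rw [this, Nat.cast_add, ZMod.natCast_self, add_zero]
      linarith
    · intro j k; simp only [mem_Icc]; omega

theorem stair_bound (m : ℕ) (x y : ZMod (2 * m + 1) → ℝ) (hx : ∑ j, x j = 0) (hy : ∑ j, y j = 0)
    (hx2 : ∑ j, x j ^ 2 = 1) (hy2 : ∑ j, y j ^ 2 = 1) :
    4 * Real.sin (Real.pi / ((2 * m + 1 : ℕ) : ℝ)) ^ 2 * stair m x y ^ 2 ≤ 1 := by
  rw [stair_eq m x y hy]
  set Y : ℕ → ℝ := fun s => ∑ r ∈ range s, y ((r + m + 1 : ℕ) : ZMod (2 * m + 1)) with hY
  have hYn : Y (2 * m + 1) = 0 := by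
    simp only [hY]
    have := sum_zmod_cast m (fun j => y (j + ((m + 1 : ℕ) : ZMod (2 * m + 1))))
    rw [← hy, ← Equiv.sum_comp (Equiv.addRight ((m + 1 : ℕ) : ZMod (2 * m + 1)))]
    simp only [Equiv.coe_addRight]
    rw [← this]
    refine Finset.sum_congr rfl fun r _ => ?_
    congr 1; push_cast; ring
  have hstep : ∀ j : ZMod (2 * m + 1),
      Y (j + 1).val - Y j.val = y (j + ((m + 1 : ℕ) : ZMod (2 * m + 1))) := by
    intro j
    have h1 : Y (j.val + 1) - Y j.val = y (j + ((m + 1 : ℕ) : ZMod (2 * m + 1))) := by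
      simp only [hY]
      rw [Finset.sum_range_succ, add_sub_cancel_left]
      congr 1
      rw [add_assoc, Nat.cast_add, ZMod.natCast_zmod_val]
    rw [← h1]
    congr 1
    have h2 : (j + 1).val = (j.val + 1) % (2 * m + 1) := by
      have : j + 1 = ((j.val + 1 : ℕ) : ZMod (2 * m + 1)) := by
        rw [Nat.cast_add, ZMod.natCast_zmod_val, Nat.cast_one]
      rw [this, ZMod.val_natCast]
    have h3 := ZMod.val_lt j
    by_cases h : j.val + 1 < 2 * m + 1
    · rw [h2, Nat.mod_eq_of_lt h]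
    · have h4 : j.val + 1 = 2 * m + 1 := by omega
      rw [h2, h4, Nat.mod_self, hYn]
      simp [hY]
  set c : ℝ := (∑ j : ZMod (2 * m + 1), Y j.val) / ((2 * m + 1 : ℕ) : ℝ) with hc
  set u : ZMod (2 * m + 1) → ℝ := fun j => Y j.val - c with hu
  have hN : (0 : ℝ) < ((2 * m + 1 : ℕ) : ℝ) := by positivity
  have hu0 : ∑ j, u j = 0 := by
    simp only [hu]
    rw [Finset.sum_sub_distrib, Finset.sum_const, Finset.card_univ, ZMod.card, nsmul_eq_mul, hc]
    field_simp
    ring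
  have hw := wirtinger u hu0
  have h5 : ∑ j, (u (j + 1) - u j) ^ 2 = 1 := by
    rw [← hy2, ← Equiv.sum_comp (Equiv.addRight ((m + 1 : ℕ) : ZMod (2 * m + 1))) (fun j => y j ^ 2)]
    refine Finset.sum_congr rfl fun j _ => ?_
    simp only [hu, Equiv.coe_addRight]
    rw [← hstep]; ring
  have h6 : ∑ j : ZMod (2 * m + 1), x j * Y j.val = ∑ j, x j * u j := by
    simp only [hu, mul_sub]
    rw [Finset.sum_sub_distrib, ← Finset.sum_mul, hx]; ring
  show 4 * _ * (∑ j : ZMod (2 * m + 1), x j * Y j.val) ^ 2 ≤ 1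
  rw [h6]
  have h7 := Finset.sum_mul_sq_le_sq_mul_sq Finset.univ x u
  rw [hx2, one_mul] at h7
  rw [h5] at hw
  have h8 : 0 ≤ 4 * Real.sin (Real.pi / ((2 * m + 1 : ℕ) : ℝ)) ^ 2 := by positivity
  exact (mul_le_mul_of_nonneg_left h7 h8).trans hw

end Pool.Agent.Lib.MP_45a79b_co
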