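import Mathlib
import Pool.Agent.Lib.MP_45a79b_co.Stair
import Pool.Agent.Lib.MP_45a79b_co.Det

/-! Upper bound for the volume of a polytope with cyclic Gale diagram. -/

namespace Pool.Agent.Lib.MP_45a79b_co

open Finset Matrix MeasureTheory

/-- The standard full-dimensional simplex. -/
def stdS (d : ℕ) : Set (Fin d → ℝ) := {w | (∀ s, 0 ≤ w s) ∧ ∑ s, w s ≤ 1}

/-- The simplex on all points but `j` and `k`. -/
def omitTwo {ι : Type*} [Fintype ι] {d : ℕ} (p : ι → Fin d → ℝ) (j k : ι) : Set (Fin d → ℝ) :=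
  {z | ∃ ν : ι → ℝ, (∀ l, 0 ≤ ν l) ∧ ∑ l, ν l = 1 ∧ ν j = 0 ∧ ν k = 0 ∧ ∑ l, ν l • p l = z}

theorem mem_hull_range {ι E : Type*} [Fintype ι] [AddCommGroup E] [Module ℝ E] (p : ι → E) (z : E)
    (hz : z ∈ convexHull ℝ (Set.range p)) :
    ∃ ν : ι → ℝ, (∀ l, 0 ≤ ν l) ∧ ∑ l, ν l = 1 ∧ ∑ l, ν l • p l = z := by
  classical
  have hconv : Convex ℝ {z : E | ∃ ν : ι → ℝ, (∀ l, 0 ≤ ν l) ∧ ∑ l, ν l = 1 ∧
      ∑ l, ν l • p l = z} := by
    rintro a ⟨ν, h1, h2, rfl⟩ b ⟨μ, h3, h4, rfl⟩ s t hs ht hst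
    refine ⟨fun l => s * ν l + t * μ l, fun l => add_nonneg (mul_nonneg hs (h1 l))
      (mul_nonneg ht (h3 l)), ?_, ?_⟩
    · rw [Finset.sum_add_distrib, ← Finset.mul_sum, ← Finset.mul_sum, h2, h4]; linarith
    · simp_rw [add_smul, mul_smul]
      rw [Finset.sum_add_distrib, Finset.smul_sum, Finset.smul_sum]
  refine convexHull_min ?_ hconv hz
  rintro _ ⟨i, rfl⟩
  refine ⟨fun l => if l = i then 1 else 0, fun l => by dsimp only; split_ifs <;> norm_num, by simp,
    by simp⟩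

theorem exists_enum {ι : Type*} [Fintype ι] [DecidableEq ι] {d : ℕ}
    (hcard : Fintype.card ι = d + 3) (i j k : ι) (hij : i ≠ j) (hik : i ≠ k) (hjk : j ≠ k) :
    ∃ e : Fin d → ι, Function.Injective e ∧ (∀ t, e t ≠ i) ∧ (∀ t, e t ≠ j) ∧ (∀ t, e t ≠ k) ∧
      ∀ g : ι → ℝ, ∑ l, g l = g i + g j + g k + ∑ t, g (e t) := by
  set S : Finset ι := Finset.univ \ {i, j, k} with hS
  have h3 : ({i, j, k} : Finset ι).card = 3 := Finset.card_eq_three.2 ⟨i, j, k, hij, hik, hjk, rfl⟩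
  have hSc : S.card = d := by
    rw [hS, Finset.card_univ_sdiff, hcard, h3]; omega
  set e := (Finset.equivFinOfCardEq hSc).symm with he
  have hmem : ∀ t, (e t : ι) ∉ ({i, j, k} : Finset ι) := fun t => by
    have := (e t).2
    simp only [hS, Finset.mem_sdiff] at this
    exact this.2
  refine ⟨fun t => e t, fun a b h => e.injective (Subtype.ext h), fun t h => hmem t (by simp [h]),
    fun t h => hmem t (by simp [h]), fun t h => hmem t (by simp [h]), fun g => ?_⟩
  rw [Equiv.sum_comp e (fun l => g l), Finset.sum_coe_sort S g,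
    ← Finset.sum_sdiff (Finset.subset_univ ({i, j, k} : Finset ι)), ← hS,
    Finset.sum_insert (by simp [hij, hik]), Finset.sum_insert (by simp [hjk]), Finset.sum_singleton]
  ring

theorem volume_omitTwo {ι : Type*} [Fintype ι] [DecidableEq ι] {d : ℕ} (hd : 0 < d)
    (hcard : Fintype.card ι = d + 3) (p : ι → Fin d → ℝ) (hp : ∀ l, ∑ s, p l s ^ 2 = 1)
    (x y : ι → ℝ) (hx0 : ∑ l, x l = 0) (hy0 : ∑ l, y l = 0)
    (hx : ∀ s, ∑ l, x l * p l s = 0) (hy : ∀ s, ∑ l, y l * p l s = 0)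
    (hx2 : ∑ l, x l ^ 2 = 1) (hy2 : ∑ l, y l ^ 2 = 1) (hxy : ∑ l, x l * y l = 0)
    (i j k : ι) (hij : i ≠ j) (hik : i ≠ k) (hjk : j ≠ k) (hpos : 0 ≤ x j * y k - y j * x k) :
    volume (omitTwo p j k) ≤ ENNReal.ofReal (Real.sqrt (d * (((d : ℝ) + 3) / d) ^ (d + 1))
      * (x j * y k - y j * x k)) * volume (stdS d) := by
  obtain ⟨e, he, hei, hej, hek, hsum⟩ := exists_enum hcard i j k hij hik hjk
  have hdet := det_simplex_bound hd hcard p hp x y hx0 hy0 hx hy hx2 hy2 hxy i j k hij hik hjk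
    e he hei hej hek
  set L : Matrix (Fin d) (Fin d) ℝ := Matrix.of fun s t => p (e t) s - p i s with hL
  have hsub : omitTwo p j k ⊆ (fun z => -p i + z) ⁻¹' (Matrix.toLin' L '' stdS d) := by
    rintro z ⟨ν, h0, h1, hj, hk, rfl⟩
    have h2 := hsum ν
    rw [h1, hj, hk] at h2
    refine ⟨fun t => ν (e t), ⟨fun t => h0 _, by linarith [h0 i]⟩, ?_⟩
    ext s
    have h3 := hsum (fun l => ν l * p l s)
    simp only [hj, hk, zero_mul, add_zero] at h3
    simp only [Matrix.toLin'_apply, Matrix.mulVec, dotProduct, hL, Matrix.of_apply, Pi.add_apply,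
      Pi.neg_apply, Finset.sum_apply, Pi.smul_apply, smul_eq_mul]
    rw [h3]
    simp_rw [sub_mul]
    rw [Finset.sum_sub_distrib, ← Finset.mul_sum]
    have h4 : ∑ t, ν (e t) = 1 - ν i := by linarith
    rw [h4]
    simp_rw [mul_comm (p (e _) s)]
    ring
  refine (measure_mono hsub).trans ?_
  rw [measure_preimage_add, Measure.addHaar_image_linearMap, LinearMap.det_toLin']
  gcongr
  apply abs_le_of_sq_le_sq' _ (by positivity) |> abs_le.2
  rw [mul_pow, Real.sq_sqrt (by positivity)]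
  exact hdet

theorem cover (m : ℕ) (hm : 1 ≤ m) {d : ℕ} (p : ZMod (2 * m + 1) → Fin d → ℝ)
    (x y : ZMod (2 * m + 1) → ℝ) (hx0 : ∑ l, x l = 0) (hy0 : ∑ l, y l = 0)
    (hx : ∀ s, ∑ l, x l * p l s = 0) (hy : ∀ s, ∑ l, y l * p l s = 0)
    (hsign : ∀ (j : ZMod (2 * m + 1)) (t : ℕ), 1 ≤ t → t ≤ m →
      0 < x j * y (j + t) - y j * x (j + t))
    (z : Fin d → ℝ) (hz : z ∈ convexHull ℝ (Set.range p)) :
    ∃ j ∈ Icc 1 m, ∃ k ∈ Icc (m + 1) (m + j),
      z ∈ omitTwo p (j : ZMod (2 * m + 1)) (k : ZMod (2 * m + 1)) := by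
  classical
  set Q : Set (ZMod (2 * m + 1) → ℝ) := stdSimplex ℝ _ ∩ {ν | ∑ l, ν l • p l = z} with hQ
  have hQc : IsCompact Q := by
    apply (isCompact_stdSimplex ℝ _).inter_right
    apply isClosed_eq _ continuous_const
    fun_prop
  have hQn : Q.Nonempty := by
    obtain ⟨ν, h1, h2, h3⟩ := mem_hull_range p z hz
    exact ⟨ν, ⟨h1, h2⟩, h3⟩
  obtain ⟨ν, ⟨⟨h0, h1⟩, hνz⟩, hmax⟩ := hQc.exists_isMaxOn hQn
    (f := fun ν => ν 0) (by fun_prop)
  by_contra hcon
  push Not at hcon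
  -- the largest active index among `1..m`
  obtain ⟨s, hs, hsmax⟩ := Finset.exists_max_image
    ((range (m + 1)).filter fun s : ℕ => s = 0 ∨ ν (s : ZMod (2 * m + 1)) = 0) id
    ⟨0, by simp⟩
  simp only [mem_filter, mem_range, id] at hs hsmax
  set A : ZMod (2 * m + 1) := ((s + m + 1 : ℕ) : ZMod (2 * m + 1)) with hA
  have hn0 : ((2 * m + 1 : ℕ) : ZMod (2 * m + 1)) = 0 := ZMod.natCast_self _
  have harc : ∀ l, (l = 0 ∨ ν l = 0) → ∃ r : ℕ, r ≤ m ∧ l = A + r := by
    intro l hl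
    have hlv := ZMod.val_lt l
    by_cases hlm : l.val ≤ m
    · have h2 : l.val ≤ s := by
        apply hsmax
        refine ⟨by omega, ?_⟩
        rcases hl with rfl | hl
        · left; simp
        · right; simpa using hl
      refine ⟨l.val + m - s, by omega, ?_⟩
      rw [hA, ← Nat.cast_add]
      have : s + m + 1 + (l.val + m - s) = l.val + (2 * m + 1) := by omega
      rw [this, Nat.cast_add, hn0, add_zero, ZMod.natCast_zmod_val]
    · have hl' : ν l = 0 := by
        rcases hl with rfl | hl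
        · simp at hlm
        · exact hl
      have h2 : m + s < l.val := by
        by_contra h3
        have hs0 : s ≠ 0 := by omega
        apply hcon s (by simp only [mem_Icc]; omega) l.val (by simp only [mem_Icc]; omega)
        refine ⟨ν, h0, h1, hs.2.resolve_left hs0, by simpa using hl', hνz⟩
      refine ⟨l.val - (s + m + 1), by omega, ?_⟩
      rw [hA, ← Nat.cast_add]
      have : s + m + 1 + (l.val - (s + m + 1)) = l.val := by omega
      rw [this, ZMod.natCast_zmod_val]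
  set B : ZMod (2 * m + 1) := A + m with hB
  set lam : ZMod (2 * m + 1) → ℝ :=
    fun l => (x A - x B) * y l + (y B - y A) * x l with hlam
  have hlampos : ∀ l, (l = 0 ∨ ν l = 0) → 0 < lam l := by
    intro l hl
    obtain ⟨r, hr, rfl⟩ := harc l hl
    have hB' : B = A + r + ((m - r : ℕ) : ZMod (2 * m + 1)) := by
      rw [hB, add_assoc, Nat.cast_sub hr]; ring
    have e1 : lam (A + r) = (x A * y (A + r) - y A * x (A + r))
        + (x (A + r) * y B - y (A + r) * x B) := by simp only [hlam]; ring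
    rw [e1]
    have a1 : 0 ≤ x A * y (A + r) - y A * x (A + r) := by
      rcases Nat.eq_zero_or_pos r with rfl | hr0
      · simp [mul_comm]
      · exact (hsign A r hr0 hr).le
    have a2 : 0 ≤ x (A + r) * y B - y (A + r) * x B := by
      rcases Nat.eq_zero_or_pos (m - r) with h | hr0
      · rw [hB', h]; simp [mul_comm]
      · rw [hB']; exact (hsign (A + r) (m - r) hr0 (by omega)).le
    rcases Nat.eq_zero_or_pos r with rfl | hr0
    · have := hsign (A + ((0 : ℕ) : ZMod (2 * m + 1))) (m - 0) (by omega) (by omega)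
      rw [← hB'] at this
      linarith
    · have := hsign A r hr0 hr
      linarith
  have hev : ∀ l, ∀ᶠ ε in nhdsWithin (0 : ℝ) (Set.Ioi 0), 0 ≤ ν l + ε * lam l := by
    intro l
    rcases (h0 l).eq_or_lt with h | h
    · filter_upwards [self_mem_nhdsWithin] with ε hε
      rw [← h, zero_add]
      exact mul_nonneg (le_of_lt hε) (hlampos l (Or.inr h.symm)).le
    · apply Filter.Eventually.filter_mono nhdsWithin_le_nhds
      have hc : Continuous fun ε : ℝ => ν l + ε * lam l := by fun_prop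
      have := hc.continuousAt (x := 0) |>.eventually (lt_mem_nhds (by simpa using h))
      exact this.mono fun ε hε => le_of_lt hε
  obtain ⟨ε, hε, hε0⟩ := ((Filter.eventually_all.2 hev).and self_mem_nhdsWithin).exists
  have hmem : (fun l => ν l + ε * lam l) ∈ Q := by
    refine ⟨⟨hε, ?_⟩, ?_⟩
    · simp only [hlam]
      rw [Finset.sum_add_distrib, h1, ← Finset.mul_sum, Finset.sum_add_distrib, ← Finset.mul_sum,
        ← Finset.mul_sum, hx0, hy0]
      ring
    · show ∑ l, (ν l + ε * lam l) • p l = z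
      rw [← show ∑ l, ν l • p l = z from hνz]
      ext t
      simp only [Finset.sum_apply, Pi.smul_apply, smul_eq_mul, hlam]
      have : ∀ l, (ν l + ε * ((x A - x B) * y l + (y B - y A) * x l)) * p l t
          = ν l * p l t + (ε * (x A - x B) * (y l * p l t) + ε * (y B - y A) * (x l * p l t)) := by
        intro l; ring
      simp_rw [this]
      rw [Finset.sum_add_distrib, Finset.sum_add_distrib, ← Finset.mul_sum, ← Finset.mul_sum,
        hx t, hy t]
      ring
  have h5 : ν 0 + ε * lam 0 ≤ ν 0 := hmax hmem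
  have h6 := mul_pos (show 0 < ε from hε0) (hlampos 0 (Or.inl rfl))
  linarith

theorem natCast_ne {m a b : ℕ} (ha : a < 2 * m + 1) (hb : b < 2 * m + 1) (h : a ≠ b) :
    (a : ZMod (2 * m + 1)) ≠ (b : ZMod (2 * m + 1)) := by
  intro h'
  have := congrArg ZMod.val h'
  rw [ZMod.val_natCast, ZMod.val_natCast, Nat.mod_eq_of_lt ha, Nat.mod_eq_of_lt hb] at this
  exact h this

theorem volume_upper (m : ℕ) {d : ℕ} (hd : 0 < d) (hdm : 2 * m + 1 = d + 3)
    (p : ZMod (2 * m + 1) → Fin d → ℝ) (hp : ∀ l, ∑ s, p l s ^ 2 = 1)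
    (x y : ZMod (2 * m + 1) → ℝ) (hx0 : ∑ l, x l = 0) (hy0 : ∑ l, y l = 0)
    (hx : ∀ s, ∑ l, x l * p l s = 0) (hy : ∀ s, ∑ l, y l * p l s = 0)
    (hx2 : ∑ l, x l ^ 2 = 1) (hy2 : ∑ l, y l ^ 2 = 1) (hxy : ∑ l, x l * y l = 0)
    (hsign : ∀ (j : ZMod (2 * m + 1)) (t : ℕ), 1 ≤ t → t ≤ m →
      0 < x j * y (j + t) - y j * x (j + t)) :
    volume (convexHull ℝ (Set.range p)) ≤
      ENNReal.ofReal (Real.sqrt (d * (((d : ℝ) + 3) / d) ^ (d + 1))
        / (2 * Real.sin (Real.pi / ((d : ℝ) + 3)))) * volume (stdS d) := by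
  have hm : 1 ≤ m := by omega
  set C := Real.sqrt (d * (((d : ℝ) + 3) / d) ^ (d + 1)) with hC
  have hC0 : 0 ≤ C := Real.sqrt_nonneg _
  have hbr : ∀ j ∈ Icc 1 m, ∀ k ∈ Icc (m + 1) (m + j),
      0 ≤ x (j : ZMod (2 * m + 1)) * y (k : ZMod (2 * m + 1))
        - y (j : ZMod (2 * m + 1)) * x (k : ZMod (2 * m + 1)) := by
    intro j hj k hk
    simp only [mem_Icc] at hj hk
    have := hsign (j : ZMod (2 * m + 1)) (k - j) (by omega) (by omega)
    rw [← Nat.cast_add, show j + (k - j) = k by omega] at this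
    exact this.le
  have hsub : convexHull ℝ (Set.range p) ⊆ ⋃ j ∈ Icc 1 m, ⋃ k ∈ Icc (m + 1) (m + j),
      omitTwo p (j : ZMod (2 * m + 1)) (k : ZMod (2 * m + 1)) := by
    intro z hz
    obtain ⟨j, hj, k, hk, h⟩ := cover m hm p x y hx0 hy0 hx hy hsign z hz
    simp only [Set.mem_iUnion]
    exact ⟨j, hj, k, hk, h⟩
  have h1 : volume (convexHull ℝ (Set.range p)) ≤ ∑ j ∈ Icc 1 m, ∑ k ∈ Icc (m + 1) (m + j),
      ENNReal.ofReal (C * (x (j : ZMod (2 * m + 1)) * y (k : ZMod (2 * m + 1))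
        - y (j : ZMod (2 * m + 1)) * x (k : ZMod (2 * m + 1)))) * volume (stdS d) := by
    refine (measure_mono hsub).trans ((measure_biUnion_finset_le _ _).trans ?_)
    refine Finset.sum_le_sum fun j hj => (measure_biUnion_finset_le _ _).trans ?_
    refine Finset.sum_le_sum fun k hk => ?_
    have hb := hbr j hj k hk
    simp only [mem_Icc] at hj hk
    refine volume_omitTwo hd (by rw [ZMod.card]; exact hdm) p hp x y hx0 hy0 hx hy hx2 hy2 hxy
      ((0 : ℕ) : ZMod (2 * m + 1)) _ _ (natCast_ne (by omega) (by omega) (by omega))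
      (natCast_ne (by omega) (by omega) (by omega))
      (natCast_ne (by omega) (by omega) (by omega)) hb
  refine h1.trans ?_
  simp_rw [← Finset.sum_mul]
  gcongr
  have h2 : ∑ j ∈ Icc 1 m, ∑ k ∈ Icc (m + 1) (m + j),
      ENNReal.ofReal (C * (x (j : ZMod (2 * m + 1)) * y (k : ZMod (2 * m + 1))
        - y (j : ZMod (2 * m + 1)) * x (k : ZMod (2 * m + 1))))
      = ENNReal.ofReal (C * stair m x y) := by
    unfold stair
    rw [Finset.mul_sum, ENNReal.ofReal_sum_of_nonneg]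
    · refine Finset.sum_congr rfl fun j hj => ?_
      rw [Finset.mul_sum, ENNReal.ofReal_sum_of_nonneg]
      exact fun k hk => mul_nonneg hC0 (hbr j hj k hk)
    · intro j hj
      exact mul_nonneg hC0 (Finset.sum_nonneg fun k hk => hbr j hj k hk)
  rw [h2]
  apply ENNReal.ofReal_le_ofReal
  have h3 := stair_bound m x y hx0 hy0 hx2 hy2
  have h4 : ((2 * m + 1 : ℕ) : ℝ) = (d : ℝ) + 3 := by rw [hdm]; push_cast; ring
  rw [h4] at h3
  have h5 : 0 < Real.sin (Real.pi / ((d : ℝ) + 3)) := by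
    apply Real.sin_pos_of_pos_of_lt_pi (by positivity)
    apply div_lt_self Real.pi_pos
    have : (0 : ℝ) ≤ d := by positivity
    linarith
  rw [div_eq_mul_inv]
  apply mul_le_mul_of_nonneg_left _ hC0
  rw [← one_div, le_div_iff₀ (by positivity)]
  apply (abs_le_of_sq_le_sq' _ (by norm_num : (0 : ℝ) ≤ 1)).2
  nlinarith

end Pool.Agent.Lib.MP_45a79b_co
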