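import Mathlib
import Pool.Agent.Lib.MP_45a79b_co.Upper

/-! Faces of convex hulls of finite families and order isomorphisms of face lattices. -/

namespace Pool.Agent.Lib.MP_45a79b_co

open Finset

section general

variable {E : Type*} [NormedAddCommGroup E] [NormedSpace ℝ E]

theorem exists_ge_range {ι : Type*} (q : ι → E) (l : E →L[ℝ] ℝ) (z : E)
    (hz : z ∈ convexHull ℝ (Set.range q)) : ∃ i, l z ≤ l (q i) := by
  obtain ⟨_, ⟨i, rfl⟩, h⟩ := (l.toLinearMap.convexOn convex_univ).exists_ge_of_mem_convexHull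
    (Set.subset_univ _) hz
  exact ⟨i, h⟩

theorem exists_mem_face {ι : Type*} (q : ι → E) (F : Set E)
    (hF : IsExposed ℝ (convexHull ℝ (Set.range q)) F) (hne : F.Nonempty) : ∃ i, q i ∈ F := by
  obtain ⟨l, rfl⟩ := hF hne
  obtain ⟨z, hz1, hz2⟩ := hne
  obtain ⟨i, hi⟩ := exists_ge_range q l z hz1
  exact ⟨i, subset_convexHull ℝ _ ⟨i, rfl⟩, fun y hy => (hz2 y hy).trans hi⟩

theorem exposed_single {ι : Type*} [Fintype ι] (q : ι → E) (i : ι) (l : E →L[ℝ] ℝ)
    (h : ∀ j, q j ≠ q i → l (q j) < l (q i)) :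
    IsExposed ℝ (convexHull ℝ (Set.range q)) {q i} := by
  have hle : ∀ j, l (q j) ≤ l (q i) := fun j => by
    by_cases h' : q j = q i
    · rw [h']
    · exact (h j h').le
  rw [← mem_exposedPoints_iff_exposed_singleton]
  refine ⟨subset_convexHull ℝ _ ⟨i, rfl⟩, l, fun y hy => ⟨?_, fun hy' => ?_⟩⟩
  · obtain ⟨j, hj⟩ := exists_ge_range q l y hy
    exact hj.trans (hle j)
  · obtain ⟨ν, h0, h1, rfl⟩ := mem_hull_range q y hy
    have h2 : ∑ j, ν j * (l (q i) - l (q j)) = l (q i) - l (∑ j, ν j • q j) := by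
      simp_rw [mul_sub]
      rw [Finset.sum_sub_distrib, ← Finset.sum_mul, h1, map_sum]
      simp
    have h3 : ∀ j ∈ Finset.univ, 0 ≤ ν j * (l (q i) - l (q j)) :=
      fun j _ => mul_nonneg (h0 j) (sub_nonneg.2 (hle j))
    have h4 : ∑ j, ν j * (l (q i) - l (q j)) = 0 :=
      le_antisymm (by linarith) (Finset.sum_nonneg h3)
    rw [Finset.sum_eq_zero_iff_of_nonneg h3] at h4
    have h5 : ∀ j, ν j • q j = ν j • q i := by
      intro j
      by_cases h' : q j = q i
      · rw [h']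
      · have := h4 j (Finset.mem_univ j)
        rcases mul_eq_zero.1 this with h6 | h6
        · simp [h6]
        · linarith [h j h']
    simp_rw [h5]
    rw [← Finset.sum_smul, h1, one_smul]

theorem iso_nonempty {E' : Type*} [NormedAddCommGroup E'] [NormedSpace ℝ E'] {C : Set E}
    {P : Set E'} (Φ : {F : Set E // IsExposed ℝ C F} ≃o {F : Set E' // IsExposed ℝ P F})
    (A : {F : Set E // IsExposed ℝ C F}) (hA : A.1.Nonempty) : (Φ A).1.Nonempty := by
  by_contra h
  rw [Set.not_nonempty_iff_eq_empty] at h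
  have h1 : Φ A ≤ Φ ⟨∅, isExposed_empty⟩ := by
    show (Φ A).1 ⊆ _
    rw [h]; exact Set.empty_subset _
  have h2 : A.1 ⊆ ∅ := Φ.le_iff_le.1 h1
  obtain ⟨z, hz⟩ := hA
  exact h2 hz

theorem atom_map {E' : Type*} [NormedAddCommGroup E'] [NormedSpace ℝ E'] {κ : Type*} {C : Set E}
    (p : κ → E') (hp : ∀ k, IsExposed ℝ (convexHull ℝ (Set.range p)) {p k})
    (Φ : {F : Set E // IsExposed ℝ C F} ≃o
      {F : Set E' // IsExposed ℝ (convexHull ℝ (Set.range p)) F})
    (y : E) (hy : IsExposed ℝ C {y}) : ∃ k, Φ ⟨{y}, hy⟩ = ⟨{p k}, hp k⟩ := by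
  obtain ⟨k, hk⟩ := exists_mem_face p _ (Φ ⟨{y}, hy⟩).2
    (iso_nonempty Φ _ (Set.singleton_nonempty y))
  refine ⟨k, ?_⟩
  have h1 : (⟨{p k}, hp k⟩ : {F : Set E' // IsExposed ℝ (convexHull ℝ (Set.range p)) F})
      ≤ Φ ⟨{y}, hy⟩ := Set.singleton_subset_iff.2 hk
  have h2 : Φ.symm ⟨{p k}, hp k⟩ ≤ ⟨{y}, hy⟩ := by
    have := Φ.symm.le_iff_le.2 h1
    rwa [OrderIso.symm_apply_apply] at this
  have h3 := iso_nonempty Φ.symm ⟨{p k}, hp k⟩ (Set.singleton_nonempty _)
  have h4 : Φ.symm ⟨{p k}, hp k⟩ = ⟨{y}, hy⟩ :=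
    Subtype.ext ((Set.Nonempty.subset_singleton_iff h3).1 h2)
  rw [← h4, OrderIso.apply_symm_apply]

theorem vertex_bijection {E' : Type*} [NormedAddCommGroup E'] [NormedSpace ℝ E'] {ι κ : Type*}
    (q : ι → E) (hqi : Function.Injective q)
    (hq : ∀ i, IsExposed ℝ (convexHull ℝ (Set.range q)) {q i})
    (p : κ → E') (hpi : Function.Injective p)
    (hp : ∀ k, IsExposed ℝ (convexHull ℝ (Set.range p)) {p k})
    (Φ : {F : Set E // IsExposed ℝ (convexHull ℝ (Set.range q)) F} ≃o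
      {F : Set E' // IsExposed ℝ (convexHull ℝ (Set.range p)) F}) :
    ∃ φ : ι ≃ κ, ∀ F i, q i ∈ F.1 ↔ p (φ i) ∈ (Φ F).1 := by
  choose φ hφ using fun i => atom_map p hp Φ (q i) (hq i)
  have hinj : Function.Injective φ := by
    intro i j h
    have h1 : Φ ⟨{q i}, hq i⟩ = Φ ⟨{q j}, hq j⟩ := by rw [hφ, hφ, h]
    have h2 := congrArg Subtype.val (Φ.injective h1)
    exact hqi (Set.singleton_injective h2)
  have hsurj : Function.Surjective φ := by
    intro k
    obtain ⟨i, hi⟩ := atom_map q hq Φ.symm (p k) (hp k)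
    refine ⟨i, ?_⟩
    have h1 := hφ i
    rw [← hi, OrderIso.apply_symm_apply] at h1
    exact (hpi (Set.singleton_injective (congrArg Subtype.val h1))).symm
  refine ⟨Equiv.ofBijective φ ⟨hinj, hsurj⟩, fun F i => ?_⟩
  have h1 : Φ ⟨{q i}, hq i⟩ ≤ Φ F ↔ (⟨{q i}, hq i⟩ : {F // IsExposed ℝ _ F}) ≤ F := Φ.le_iff_le
  rw [hφ] at h1
  exact ⟨fun h => Set.singleton_subset_iff.1 (h1.2 (Set.singleton_subset_iff.2 h)),
    fun h => Set.singleton_subset_iff.1 (h1.1 (Set.singleton_subset_iff.2 h))⟩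

/-- A face gives a nonnegative vector orthogonal to all affine dependencies. -/
theorem coface {ι : Type*} [Fintype ι] (p : ι → E) (G : Set E)
    (hG : IsExposed ℝ (convexHull ℝ (Set.range p)) G) (i₀ : ι) (h₀ : p i₀ ∈ G) :
    ∃ α : ι → ℝ, (∀ i, p i ∈ G → α i = 0) ∧ (∀ i, p i ∉ G → 0 < α i) ∧
      ∀ x : ι → ℝ, ∑ i, x i = 0 → ∑ i, x i • p i = 0 → ∑ i, α i * x i = 0 := by
  obtain ⟨l, rfl⟩ := hG ⟨_, h₀⟩
  refine ⟨fun i => l (p i₀) - l (p i), fun i hi => ?_, fun i hi => ?_, fun x h1 h2 => ?_⟩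
  · exact sub_eq_zero.2 (le_antisymm (hi.2 _ h₀.1) (h₀.2 _ hi.1))
  · have hm : p i ∈ convexHull ℝ (Set.range p) := subset_convexHull ℝ _ ⟨i, rfl⟩
    by_contra h
    apply hi
    refine ⟨hm, fun y hy => (h₀.2 y hy).trans ?_⟩
    simpa using h
  · simp_rw [sub_mul]
    rw [Finset.sum_sub_distrib, ← Finset.mul_sum, h1]
    have := congrArg l h2
    rw [map_sum, map_zero] at this
    simp only [map_smul, smul_eq_mul] at this
    simp_rw [mul_comm (l (p _))]
    rw [this]; ring

end general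

section moment

/-- The functional attached to a polynomial. -/
theorem exists_functional {d : ℕ} (f : Polynomial ℝ) (hf : f.natDegree ≤ d) :
    ∃ l : EuclideanSpace ℝ (Fin d) →L[ℝ] ℝ, ∀ t : ℝ,
      l (WithLp.toLp 2 fun i : Fin d => t ^ (i.val + 1)) = f.eval t - f.coeff 0 := by
  refine ⟨innerSL ℝ (WithLp.toLp 2 fun i : Fin d => f.coeff (i.val + 1)), fun t => ?_⟩
  rw [Polynomial.eval_eq_sum_range' (Nat.lt_succ_of_le hf), Finset.sum_range_succ',
    ← Fin.sum_univ_eq_sum_range (fun i => f.coeff (i + 1) * t ^ (i + 1))]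
  simp [PiLp.inner_apply, mul_comm]

theorem moment_injective {d : ℕ} (hd : 0 < d) : Function.Injective
    fun t : ℝ => (WithLp.toLp 2 fun i : Fin d => t ^ (i.val + 1) : EuclideanSpace ℝ (Fin d)) := by
  intro s t h
  have := congrArg (fun z : EuclideanSpace ℝ (Fin d) => z ⟨0, hd⟩) h
  simpa using this

theorem moment_exposed {d : ℕ} (hd : 2 ≤ d) {ι : Type*} [Fintype ι] (t : ι → ℝ) (i : ι) :
    IsExposed ℝ (convexHull ℝ (Set.range fun j =>
      (WithLp.toLp 2 fun s : Fin d => t j ^ (s.val + 1) : EuclideanSpace ℝ (Fin d))))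
      {WithLp.toLp 2 fun s : Fin d => t i ^ (s.val + 1)} := by
  obtain ⟨l, hl⟩ := exists_functional (d := d) (-(Polynomial.X - Polynomial.C (t i)) ^ 2) (by
    rw [Polynomial.natDegree_neg, Polynomial.natDegree_pow, Polynomial.natDegree_X_sub_C]; omega)
  refine exposed_single _ i l fun j hj => ?_
  rw [hl, hl]
  have h : t j ≠ t i := fun h => hj (by rw [h])
  have : 0 < (t j - t i) ^ 2 := by have := sub_ne_zero.2 h; positivity
  simp only [Polynomial.eval_neg, Polynomial.eval_pow, Polynomial.eval_sub, Polynomial.eval_X,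
    Polynomial.eval_C]
  linarith

theorem prod_sign {n : ℕ} (t : Fin n → ℝ) (ht : StrictMono t) (i : Fin n) :
    0 < (-1) ^ (n - 1 - i.val) * ∏ l ∈ Finset.univ.erase i, (t i - t l) := by
  have h1 : Finset.univ.erase i = Finset.Iio i ∪ Finset.Ioi i := by
    ext l; simp only [mem_erase, mem_univ, and_true, mem_union, mem_Iio, mem_Ioi]
    exact ne_iff_lt_or_gt
  have h2 : Disjoint (Finset.Iio i) (Finset.Ioi i) := by
    rw [Finset.disjoint_left]; intro l h h'
    simp only [mem_Iio, mem_Ioi] at h h'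
    exact lt_asymm h h'
  rw [h1, Finset.prod_union h2, ← Fin.card_Ioi, ← Finset.prod_const, mul_left_comm,
    ← Finset.prod_mul_distrib]
  apply mul_pos
  · exact Finset.prod_pos fun l hl => sub_pos.2 (ht (mem_Iio.1 hl))
  · exact Finset.prod_pos fun l hl => by linarith [ht (mem_Ioi.1 hl)]

theorem gale_face {d : ℕ} (hd : 0 < d) (t : Fin (d + 3) → ℝ) (ht : StrictMono t)
    (a b c : Fin (d + 3)) (hab : a < b) (hbc : b < c) (h1 : Odd (a.val + b.val))
    (h2 : Odd (b.val + c.val)) :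
    ∃ F, IsExposed ℝ (convexHull ℝ (Set.range fun j =>
      (WithLp.toLp 2 fun s : Fin d => t j ^ (s.val + 1) : EuclideanSpace ℝ (Fin d)))) F ∧
      ∀ j, (WithLp.toLp 2 fun s : Fin d => t j ^ (s.val + 1)) ∈ F ↔ j ∉ ({a, b, c} : Finset _) := by
  set S : Finset (Fin (d + 3)) := Finset.univ \ {a, b, c} with hS
  have hac : a < c := hab.trans hbc
  have h3 : ({a, b, c} : Finset (Fin (d + 3))).card = 3 :=
    Finset.card_eq_three.2 ⟨a, b, c, hab.ne, hac.ne, hbc.ne, rfl⟩
  have hSc : S.card = d := by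
    rw [hS, Finset.card_univ_sdiff, Fintype.card_fin, h3]; omega
  set ε : ℝ := (-1) ^ (d + 3 - 1 - a.val) with hε
  obtain ⟨l, hl⟩ := exists_functional (d := d)
    (Polynomial.C (-ε) * ∏ l ∈ S, (Polynomial.X - Polynomial.C (t l))) (by
      refine (Polynomial.natDegree_C_mul_le _ _).trans ?_
      rw [Polynomial.natDegree_finsetProd_X_sub_C_eq_card, hSc])
  set c₀ := (Polynomial.C (-ε) * ∏ l ∈ S, (Polynomial.X - Polynomial.C (t l))).coeff 0 with hc₀
  have hl' : ∀ j, l (WithLp.toLp 2 fun s : Fin d => t j ^ (s.val + 1))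
      = -(ε * ∏ l ∈ S, (t j - t l)) - c₀ := by
    intro j
    rw [hl]; simp [Polynomial.eval_prod]
  have hzero : ∀ j, j ∉ ({a, b, c} : Finset _) → ε * ∏ l ∈ S, (t j - t l) = 0 := by
    intro j hj
    rw [Finset.prod_eq_zero (i := j) (by simpa [hS] using hj) (sub_self _), mul_zero]
  have hsplit : ∀ i u v : Fin (d + 3), ({a, b, c} : Finset _) = {i, u, v} → i ≠ u → i ≠ v → u ≠ v →
      ∏ l ∈ Finset.univ.erase i, (t i - t l) = (t i - t u) * (t i - t v) * ∏ l ∈ S, (t i - t l) := by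
    intro i u v h hiu hiv huv
    have : Finset.univ.erase i = insert u (insert v S) := by
      ext l
      simp only [hS, h, mem_erase, mem_univ, and_true, mem_insert, mem_sdiff, true_and,
        mem_singleton]
      constructor
      · intro hl; tauto
      · rintro (rfl | rfl | hl)
        · exact hiu.symm
        · exact hiv.symm
        · tauto
    rw [this, Finset.prod_insert (by simp [hS, h, huv]), Finset.prod_insert (by simp [hS, h]),
      mul_assoc]
  have hpos : ∀ j, j ∈ ({a, b, c} : Finset _) → 0 < ε * ∏ l ∈ S, (t j - t l) := by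
    have tab := ht hab
    have tbc := ht hbc
    have ha := a.2
    have hb := b.2
    have hc := c.2
    have hab' : a.val < b.val := hab
    have hbc' : b.val < c.val := hbc
    intro j hj
    simp only [mem_insert, mem_singleton] at hj
    rcases hj with rfl | rfl | rfl
    · have h4 := prod_sign t ht j
      rw [hsplit j b c rfl hab.ne hac.ne hbc.ne, ← hε] at h4
      have h5 : 0 < (t j - t b) * (t j - t c) := mul_pos_of_neg_of_neg (by linarith) (by linarith)
      by_contra h6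
      nlinarith
    · have h4 := prod_sign t ht j
      rw [hsplit j a c (by ext l; simp only [mem_insert, mem_singleton]; tauto)
        hab.ne' hbc.ne hac.ne] at h4
      have h7 : ((-1 : ℝ)) ^ (d + 3 - 1 - j.val) = -ε := by
        obtain ⟨u, hu⟩ := h1
        have : d + 3 - 1 - a.val = (d + 3 - 1 - j.val) + (2 * (u - a.val) + 1) := by omega
        rw [hε, this, pow_add, pow_succ, pow_mul]; simp
      rw [h7] at h4
      have h5 : (t j - t a) * (t j - t c) < 0 := mul_neg_of_pos_of_neg (by linarith) (by linarith)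
      by_contra h6
      nlinarith
    · have h4 := prod_sign t ht j
      rw [hsplit j a b (by ext l; simp only [mem_insert, mem_singleton]; tauto)
        hac.ne' hbc.ne' hab.ne] at h4
      have h7 : ((-1 : ℝ)) ^ (d + 3 - 1 - j.val) = ε := by
        obtain ⟨u, hu⟩ := h1
        obtain ⟨v, hv⟩ := h2
        have : d + 3 - 1 - a.val = (d + 3 - 1 - j.val) + 2 * (v - u) := by omega
        rw [hε, this, pow_add, pow_mul]; simp
      rw [h7] at h4
      have h5 : 0 < (t j - t a) * (t j - t b) := mul_pos (by linarith) (by linarith)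
      by_contra h6
      nlinarith
  obtain ⟨j₀, hj₀⟩ : S.Nonempty := Finset.card_pos.1 (by omega)
  have hj₀' : j₀ ∉ ({a, b, c} : Finset _) := by simpa [hS] using hj₀
  refine ⟨l.toExposed _, ContinuousLinearMap.toExposed.isExposed, fun j => ⟨fun h hj => ?_, fun hj => ?_⟩⟩
  · have h4 := h.2 _ (subset_convexHull ℝ _ ⟨j₀, rfl⟩)
    rw [hl', hl', hzero j₀ hj₀'] at h4
    linarith [hpos j hj]
  · refine ⟨subset_convexHull ℝ _ ⟨j, rfl⟩, fun y hy => ?_⟩
    obtain ⟨i, hi⟩ := exists_ge_range _ l y hy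
    refine hi.trans ?_
    rw [hl', hl', hzero j hj]
    by_cases h : i ∈ ({a, b, c} : Finset _)
    · linarith [hpos i h]
    · rw [hzero i h]

end moment

end Pool.Agent.Lib.MP_45a79b_co
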