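import Mathlib
import Pool.Agent.Lib.MP_45a79b_co.Upper

/-! Lower bound: the free sum of three regular simplices. -/

namespace Pool.Agent.Lib.MP_45a79b_co

open Finset Matrix MeasureTheory

/-- The standard simplex without its coordinate facets. -/
def stdO (d : ℕ) : Set (Fin d → ℝ) := {w | (∀ s, 0 < w s) ∧ ∑ s, w s ≤ 1}

theorem measurableSet_stdO (d : ℕ) : MeasurableSet (stdO d) := by
  have : stdO d = (⋂ s, {w : Fin d → ℝ | 0 < w s}) ∩ {w | ∑ s, w s ≤ 1} := by
    ext w; simp [stdO]
  rw [this]
  refine MeasurableSet.inter (MeasurableSet.iInter fun s => ?_) ?_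
  · exact measurableSet_lt measurable_const (measurable_pi_apply s)
  · exact measurableSet_le (by fun_prop) measurable_const

theorem volume_stdS_le (d : ℕ) : volume (stdS d) ≤ volume (stdO d) := by
  have hsub : stdS d ⊆ stdO d ∪ ⋃ s, {w : Fin d → ℝ | w s = 0} := by
    rintro w ⟨h1, h2⟩
    by_cases h : ∀ s, 0 < w s
    · exact Or.inl ⟨h, h2⟩
    · push Not at h
      obtain ⟨s, hs⟩ := h
      exact Or.inr (Set.mem_iUnion.2 ⟨s, le_antisymm hs (h1 s)⟩)
  refine (measure_mono hsub).trans ((measure_union_le _ _).trans ?_)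
  have : volume (⋃ s, {w : Fin d → ℝ | w s = 0}) = 0 := by
    rw [measure_iUnion_null_iff]
    intro s
    exact Measure.pi_hyperplane (fun _ => volume) s 0
  rw [this, add_zero]

theorem volume_stdS_pos {d : ℕ} : 0 < volume (stdS d) := by
  have hsub : Set.pi Set.univ (fun _ : Fin d => Set.Ioo (0 : ℝ) (1 / ((d : ℝ) + 1))) ⊆ stdS d := by
    intro w hw
    refine ⟨fun s => (hw s trivial).1.le, ?_⟩
    calc ∑ s, w s ≤ ∑ _s : Fin d, 1 / ((d : ℝ) + 1) :=
          Finset.sum_le_sum fun s _ => (hw s trivial).2.le
      _ ≤ 1 := by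
          rw [Finset.sum_const, Finset.card_univ, Fintype.card_fin, nsmul_eq_mul, mul_one_div,
            div_le_one (by positivity)]
          linarith
  refine lt_of_lt_of_le ?_ (measure_mono hsub)
  apply IsOpen.measure_pos
  · exact isOpen_set_pi Set.finite_univ fun _ _ => isOpen_Ioo
  · exact Set.univ_pi_nonempty_iff.2 fun _ => Set.nonempty_Ioo.2 (by positivity)

theorem volume_stdS_ne_top {d : ℕ} : volume (stdS d) ≠ ⊤ := by
  have hsub : stdS d ⊆ Set.Icc 0 1 := by
    rintro w ⟨h1, h2⟩
    refine ⟨fun s => h1 s, fun s => ?_⟩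
    exact (Finset.single_le_sum (fun t _ => h1 t) (Finset.mem_univ s)).trans h2
  exact ((measure_mono hsub).trans_lt isCompact_Icc.measure_lt_top).ne

section blocks

variable {d : ℕ} (β : Fin d → Fin 3)

/-- The vertices of the standard free sum. -/
def q0 : Fin d ⊕ Fin 3 → Fin d → ℝ :=
  Sum.elim (fun s => Pi.single s 1) (fun r s => if β s = r then -1 else 0)

/-- The involution exchanging the chosen vertex of each block with the extra vertex. -/
def swapMap (o : Fin 3 → Option (Fin d)) : (Fin d → ℝ) →ₗ[ℝ] (Fin d → ℝ) where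
  toFun w := fun s => (if o (β s) = some s then 0 else w s) - (o (β s)).elim 0 w
  map_add' w w' := by
    ext s
    rcases h : o (β s) with _ | t
    · simp [h]
    · by_cases h' : t = s <;> simp [h, h'] <;> ring
  map_smul' c w := by
    ext s
    rcases h : o (β s) with _ | t
    · simp [h]
    · by_cases h' : t = s <;> simp [h, h'] <;> ring

theorem swapMap_apply (o : Fin 3 → Option (Fin d)) (w : Fin d → ℝ) (s : Fin d) :
    swapMap β o w s = (if o (β s) = some s then 0 else w s) - (o (β s)).elim 0 w := rfl

theorem swapMap_swapMap (o : Fin 3 → Option (Fin d)) (ho : ∀ r t, o r = some t → β t = r)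
    (w : Fin d → ℝ) : swapMap β o (swapMap β o w) = w := by
  ext s
  rcases h : o (β s) with _ | t
  · simp [swapMap_apply, h]
  · have h1 : o (β t) = some t := by rw [ho _ _ h, h]
    by_cases h' : t = s
    · subst h'; simp [swapMap_apply, h]
    · simp [swapMap_apply, h, h', h1]

theorem abs_det_swapMap (o : Fin 3 → Option (Fin d)) (ho : ∀ r t, o r = some t → β t = r) :
    |LinearMap.det (swapMap β o)| = 1 := by
  have h : (swapMap β o).comp (swapMap β o) = LinearMap.id :=
    LinearMap.ext (swapMap_swapMap β o ho)
  have h1 := congrArg LinearMap.det h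
  rw [LinearMap.det_comp, LinearMap.det_id] at h1
  rcases mul_self_eq_one_iff.1 h1 with h2 | h2 <;> rw [h2] <;> simp

theorem zero_mem_hull : (0 : Fin d → ℝ) ∈ convexHull ℝ (Set.range (q0 β)) := by
  set k : ℝ := ((Finset.univ.filter fun s => β s = 0).card : ℝ) with hk
  have hk0 : 0 < k + 1 := by positivity
  refine mem_convexHull_of_exists_fintype (ι := Option (Fin d))
    (fun a => a.elim (1 / (k + 1)) fun s => if β s = 0 then 1 / (k + 1) else 0)
    (fun a => a.elim (q0 β (Sum.inr 0)) fun s => q0 β (Sum.inl s)) ?_ ?_ ?_ ?_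
  · rintro (_ | s)
    · simp only [Option.elim]; positivity
    · simp only [Option.elim]; split_ifs <;> positivity
  · rw [Fintype.sum_option]
    simp only [Option.elim]
    rw [← Finset.sum_filter, Finset.sum_const, nsmul_eq_mul, ← hk]
    field_simp; ring
  · rintro (_ | s)
    · exact ⟨_, rfl⟩
    · exact ⟨_, rfl⟩
  · rw [Fintype.sum_option]
    ext s
    simp only [Option.elim, q0, Sum.elim_inr, Sum.elim_inl, Pi.add_apply, Pi.smul_apply,
      Finset.sum_apply, smul_eq_mul, Pi.single_apply, mul_ite, mul_one, mul_zero,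
      Finset.sum_ite_eq, Finset.mem_univ, if_true, Pi.zero_apply]
    split_ifs <;> ring

theorem swapMap_mem_hull (o : Fin 3 → Option (Fin d)) (ho : ∀ r t, o r = some t → β t = r)
    (w : Fin d → ℝ) (hw : w ∈ stdO d) : swapMap β o w ∈ convexHull ℝ (Set.range (q0 β)) := by
  have h1 : ∀ t, swapMap β o (Pi.single t 1) ∈ Set.range (q0 β) := by
    intro t
    by_cases h : o (β t) = some t
    · refine ⟨Sum.inr (β t), ?_⟩
      ext s
      rw [swapMap_apply]
      simp only [q0, Sum.elim_inr]
      by_cases hs : β s = β t
      · rw [hs, h]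
        by_cases hst : s = t
        · subst hst; simp
        · simp [hst, Ne.symm hst]
      · have hst : s ≠ t := fun h' => hs (by rw [h'])
        rcases h2 : o (β s) with _ | u
        · simp [hs, hst]
        · have hu : u ≠ t := fun h' => hs (by rw [← ho _ _ h2, h'])
          simp [hs, hst, hu]
    · refine ⟨Sum.inl t, ?_⟩
      ext s
      rw [swapMap_apply]
      simp only [q0, Sum.elim_inl]
      rcases h2 : o (β s) with _ | u
      · simp
      · have hu : u ≠ t := fun h' => h (by rw [← h', ho _ _ h2, h2])
        by_cases hus : u = s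
        · subst hus; simp [hu]
        · simp [hus, hu]
  have h2 : swapMap β o w = ∑ a : Option (Fin d), (a.elim (1 - ∑ s, w s) w) •
      (a.elim 0 fun t => swapMap β o (Pi.single t 1)) := by
    rw [Fintype.sum_option]
    simp only [Option.elim, smul_zero, zero_add]
    simp_rw [← map_smul]
    rw [← map_sum]
    congr 1
    ext s
    simp [Pi.single_apply]
  rw [h2]
  apply (convex_convexHull ℝ _).sum_mem
  · rintro (_ | s) _
    · simp only [Option.elim]; linarith [hw.2]
    · exact (hw.1 s).le
  · rw [Fintype.sum_option]; simp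
  · rintro (_ | s) _
    · exact zero_mem_hull β
    · exact subset_convexHull ℝ _ (h1 s)

theorem swap_min (o : Fin 3 → Option (Fin d)) (ho : ∀ r t, o r = some t → β t = r)
    (w : Fin d → ℝ) (hw : w ∈ stdO d) (r : Fin 3) (a : Option (Fin d))
    (ha : ∀ t, a = some t → β t = r) (hne : a ≠ o r) :
    (o r).elim 0 (swapMap β o w) < a.elim 0 (swapMap β o w) := by
  rcases h : o r with _ | t
  · rcases a with _ | s
    · exact absurd h.symm hne
    · have := ha s rfl
      simp [swapMap_apply, this, h, hw.1 s]
  · have h1 := ho r t h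
    rcases a with _ | s
    · simp [swapMap_apply, h1, h, hw.1 t]
    · have h2 := ha s rfl
      have h3 : t ≠ s := fun h' => hne (by rw [h, h'])
      simp [swapMap_apply, h1, h2, h, h3, hw.1 s]

theorem volume_q0 : (∏ r : Fin 3, (((Finset.univ.filter fun s => β s = r).card + 1 : ℕ) : ENNReal))
    * volume (stdS d) ≤ volume (convexHull ℝ (Set.range (q0 β))) := by
  set O : Finset (Fin 3 → Option (Fin d)) :=
    Fintype.piFinset fun r => Finset.insertNone (Finset.univ.filter fun s => β s = r) with hO
  have hO' : ∀ o ∈ O, ∀ r t, o r = some t → β t = r := by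
    intro o ho r t h
    have := Fintype.mem_piFinset.1 ho r
    rw [h, Finset.some_mem_insertNone] at this
    simpa using this
  have hcard : (O.card : ENNReal)
      = ∏ r : Fin 3, (((Finset.univ.filter fun s => β s = r).card + 1 : ℕ) : ENNReal) := by
    rw [hO, Fintype.card_piFinset]
    simp
  have himg : ∀ o ∈ O, swapMap β o ⁻¹' stdO d = swapMap β o '' stdO d := by
    intro o ho
    have := swapMap_swapMap β o (hO' o ho)
    exact (congrFun (Set.image_eq_preimage_of_inverse this this) _).symm
  have hsub : ⋃ o ∈ O, swapMap β o ⁻¹' stdO d ⊆ convexHull ℝ (Set.range (q0 β)) := by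
    intro z hz
    simp only [Set.mem_iUnion] at hz
    obtain ⟨o, ho, hz⟩ := hz
    rw [himg o ho] at hz
    obtain ⟨w, hw, rfl⟩ := hz
    exact swapMap_mem_hull β o (hO' o ho) w hw
  refine le_trans ?_ (measure_mono hsub)
  rw [measure_biUnion_finset]
  · rw [← hcard, ← nsmul_eq_mul, ← Finset.sum_const]
    refine Finset.sum_le_sum fun o ho => ?_
    rw [himg o ho, Measure.addHaar_image_linearMap, abs_det_swapMap β o (hO' o ho)]
    simpa using volume_stdS_le d
  · intro o ho o' ho' hne
    rw [Function.onFun, Set.disjoint_left]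
    intro z hz hz'
    rw [himg o ho] at hz
    rw [himg o' ho'] at hz'
    obtain ⟨w, hw, h1⟩ := hz
    obtain ⟨w', hw', h2⟩ := hz'
    obtain ⟨r, hr⟩ := Function.ne_iff.1 hne
    have a1 := swap_min β o (hO' o ho) w hw r (o' r) (hO' o' ho' r) (Ne.symm hr)
    have a2 := swap_min β o' (hO' o' ho') w' hw' r (o r) (hO' o ho r) hr
    rw [h1] at a1
    rw [h2] at a2
    exact lt_asymm a1 a2
  · intro o _
    exact (measurableSet_stdO d).preimage
      (swapMap β o).continuous_of_finiteDimensional.measurable

theorem exists_regular (hβ : ∀ r, 0 < (Finset.univ.filter fun s => β s = r).card) :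
    ∃ A : Matrix (Fin d) (Fin d) ℝ, (∀ a, ∑ s, (A *ᵥ q0 β a) s ^ 2 = 1) ∧
      A.det ^ 2 = ∏ r : Fin 3,
        ((((Finset.univ.filter fun s => β s = r).card : ℝ) + 1)
          / ((Finset.univ.filter fun s => β s = r).card : ℝ))
            ^ (Finset.univ.filter fun s => β s = r).card
          / (((Finset.univ.filter fun s => β s = r).card : ℝ) + 1) := by
  set k : Fin 3 → ℕ := fun r => (Finset.univ.filter fun s => β s = r).card with hk
  have hk0 : ∀ r, (0 : ℝ) < k r := fun r => by exact_mod_cast hβ r
  set α : Fin 3 → ℝ := fun r => Real.sqrt (((k r : ℝ) + 1) / k r) with hα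
  set γ : Fin 3 → ℝ := fun r => (Real.sqrt (k r))⁻¹ with hγ
  set b : Fin 3 → ℝ := fun r => (γ r - α r) / k r with hb
  have hα2 : ∀ r, α r ^ 2 = ((k r : ℝ) + 1) / k r := fun r =>
    Real.sq_sqrt (by have := hk0 r; positivity)
  have hα0 : ∀ r, 0 < α r := fun r => Real.sqrt_pos.2 (by have := hk0 r; positivity)
  have hγ2 : ∀ r, γ r ^ 2 = (k r : ℝ)⁻¹ := fun r => by
    simp only [hγ]; rw [inv_pow, Real.sq_sqrt (hk0 r).le]
  have hkb : ∀ r, k r * b r = γ r - α r := fun r => by
    have := hk0 r
    simp only [hb]; field_simp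
  have hsum : ∀ (r : Fin 3) (c : ℝ), ∑ s, (if β s = r then c else 0) = k r * c := by
    intro r c
    rw [← Finset.sum_filter, Finset.sum_const, nsmul_eq_mul]
  refine ⟨Matrix.of fun s t => (if s = t then α (β s) else 0) + (if β s = β t then b (β s) else 0),
    ?_, ?_⟩
  · rintro (t | r)
    · have h1 : ∀ s, ((Matrix.of fun s t => (if s = t then α (β s) else 0)
          + (if β s = β t then b (β s) else 0)) *ᵥ q0 β (Sum.inl t)) s ^ 2
          = (if s = t then α (β t) ^ 2 + 2 * α (β t) * b (β t) else 0)
            + (if β s = β t then b (β t) ^ 2 else 0) := by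
        intro s
        simp only [q0, Sum.elim_inl, Matrix.mulVec_single_one, Matrix.col_apply, Matrix.of_apply]
        by_cases h : s = t
        · subst h; simp; ring
        · by_cases h' : β s = β t <;> simp [h, h']
      simp_rw [h1]
      rw [Finset.sum_add_distrib, hsum]
      simp only [Finset.sum_ite_eq', Finset.mem_univ, if_true]
      have e1 := hα2 (β t)
      have e2 := hγ2 (β t)
      have e3 := hkb (β t)
      have e4 := hk0 (β t)
      have e5 : (k (β t) : ℝ) * (α (β t) ^ 2 + 2 * α (β t) * b (β t) + k (β t) * b (β t) ^ 2)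
          = k (β t) * α (β t) ^ 2 + (γ (β t) ^ 2 - α (β t) ^ 2) := by
        have : γ (β t) = α (β t) + k (β t) * b (β t) := by linarith
        rw [this]; ring
      rw [e1, e2] at e5
      apply mul_left_cancel₀ e4.ne'
      rw [e1, e5]; field_simp; ring
    · have h1 : ∀ s, ((Matrix.of fun s t => (if s = t then α (β s) else 0)
          + (if β s = β t then b (β s) else 0)) *ᵥ q0 β (Sum.inr r)) s ^ 2
          = if β s = r then γ r ^ 2 else 0 := by
        intro s
        simp only [q0, Sum.elim_inr, Matrix.mulVec, dotProduct, Matrix.of_apply, add_mul]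
        rw [Finset.sum_add_distrib]
        by_cases h : β s = r
        · have h2 : ∀ t, (if β s = β t then b (β s) else 0) * (if β t = r then (-1 : ℝ) else 0)
              = if β t = r then -b r else 0 := by
            intro t
            by_cases h' : β t = r <;> simp [h, h']
          simp_rw [h2]
          rw [hsum]
          simp only [ite_mul, zero_mul, Finset.sum_ite_eq, Finset.mem_univ, if_true, h]
          have e3 := hkb r
          have : γ r = α r + k r * b r := by linarith
          rw [this]; ring
        · have h2 : ∀ t, (if β s = β t then b (β s) else 0) * (if β t = r then (-1 : ℝ) else 0)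
              = 0 := by
            intro t
            by_cases h' : β t = r <;> simp [h, h']
          simp_rw [h2]
          simp only [ite_mul, zero_mul, Finset.sum_ite_eq, Finset.mem_univ, if_true]
          simp [h]
      simp_rw [h1]
      rw [hsum, hγ2, mul_inv_cancel₀ (hk0 r).ne']
  · set U : Matrix (Fin d) (Fin 3) ℝ := Matrix.of fun s r => if β s = r then b r / α r else 0
      with hU
    set V : Matrix (Fin 3) (Fin d) ℝ := Matrix.of fun r t => if β t = r then 1 else 0 with hV
    have h1 : (Matrix.of fun s t => (if s = t then α (β s) else 0)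
        + (if β s = β t then b (β s) else 0))
        = Matrix.diagonal (fun s => α (β s)) * (1 + U * V) := by
      ext s t
      have := (hα0 (β s)).ne'
      rw [Matrix.diagonal_mul, Matrix.add_apply, Matrix.mul_apply, Matrix.one_apply]
      simp only [hU, hV, Matrix.of_apply, Finset.sum_ite_eq, Finset.mem_univ,
        if_true, mul_ite, mul_one, mul_zero, mul_add]
      congr 1
      by_cases h : β s = β t
      · rw [if_pos h, if_pos h, ← h]; field_simp
      · rw [if_neg h, if_neg h]
    have h2 : 1 + V * U = Matrix.diagonal fun r => γ r / α r := by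
      ext r r'
      rw [Matrix.add_apply, Matrix.mul_apply, Matrix.one_apply, Matrix.diagonal_apply]
      simp only [hU, hV, Matrix.of_apply]
      by_cases h : r = r'
      · subst h
        have h3 : ∀ s, (if β s = r then (1 : ℝ) else 0) * (if β s = r then b r / α r else 0)
            = if β s = r then b r / α r else 0 := by
          intro s; split_ifs <;> simp
        simp_rw [h3]
        rw [hsum]
        have := (hα0 r).ne'
        have e3 := hkb r
        simp only [if_true]
        field_simp
        linarith
      · have h3 : ∀ s, (if β s = r then (1 : ℝ) else 0) * (if β s = r' then b r' / α r' else 0)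
            = 0 := by
          intro s
          by_cases h' : β s = r
          · rw [if_neg (fun h'' => h (h'.symm.trans h''))]; simp
          · simp [h']
        simp_rw [h3]
        simp [h]
    rw [h1, Matrix.det_mul, Matrix.det_one_add_mul_comm, h2, Matrix.det_diagonal,
      Matrix.det_diagonal, ← Finset.prod_fiberwise_of_maps_to (g := β) (t := Finset.univ)
        (fun _ _ => Finset.mem_univ _), ← Finset.prod_mul_distrib, ← Finset.prod_pow]
    refine Finset.prod_congr rfl fun r _ => ?_
    have h4 : ∏ s ∈ Finset.univ.filter (fun s => β s = r), α (β s) = α r ^ k r := by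
      rw [Finset.prod_congr rfl (g := fun _ => α r), Finset.prod_const]
      intro s hs
      rw [(Finset.mem_filter.1 hs).2]
    rw [h4, mul_pow, ← pow_mul, mul_comm (k r) 2, pow_mul, div_pow, hα2, hγ2]
    have := hk0 r
    show _ = (((k r : ℝ) + 1) / k r) ^ k r / ((k r : ℝ) + 1)
    field_simp

theorem volume_lower (hβ : ∀ r, 0 < (Finset.univ.filter fun s => β s = r).card) :
    ∃ q : Fin d ⊕ Fin 3 → Fin d → ℝ, (∀ a, ∑ s, q a s ^ 2 = 1) ∧
      ENNReal.ofReal (Real.sqrt (∏ r : Fin 3,
        (((Finset.univ.filter fun s => β s = r).card : ℝ) + 1) *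
        ((((Finset.univ.filter fun s => β s = r).card : ℝ) + 1)
          / ((Finset.univ.filter fun s => β s = r).card : ℝ))
            ^ (Finset.univ.filter fun s => β s = r).card)) * volume (stdS d)
        ≤ volume (convexHull ℝ (Set.range q)) := by
  obtain ⟨A, hA1, hA2⟩ := exists_regular β hβ
  refine ⟨fun a => A *ᵥ q0 β a, hA1, ?_⟩
  have h1 : convexHull ℝ (Set.range fun a => A *ᵥ q0 β a)
      = Matrix.toLin' A '' convexHull ℝ (Set.range (q0 β)) := by
    rw [LinearMap.image_convexHull, ← Set.range_comp]
    rfl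
  rw [h1, Measure.addHaar_image_linearMap, LinearMap.det_toLin']
  refine le_trans ?_ (mul_le_mul_right (volume_q0 β) _)
  rw [← mul_assoc]
  gcongr
  have h2 : (∏ r : Fin 3, (((Finset.univ.filter fun s => β s = r).card + 1 : ℕ) : ENNReal))
      = ENNReal.ofReal (∏ r : Fin 3, (((Finset.univ.filter fun s => β s = r).card : ℝ) + 1)) := by
    rw [ENNReal.ofReal_prod_of_nonneg (fun r _ => by positivity)]
    refine Finset.prod_congr rfl fun r _ => ?_
    rw [← ENNReal.ofReal_natCast]; push_cast; rfl
  rw [h2, ← ENNReal.ofReal_mul (abs_nonneg _)]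
  apply ENNReal.ofReal_le_ofReal
  apply Real.sqrt_le_iff.2
  refine ⟨by positivity, le_of_eq ?_⟩
  rw [mul_pow, sq_abs, hA2, ← Finset.prod_pow, ← Finset.prod_mul_distrib]
  refine Finset.prod_congr rfl fun r _ => ?_
  field_simp

end blocks

end Pool.Agent.Lib.MP_45a79b_co
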