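import Mathlib

/-! The numerical comparison. -/

namespace Pool.Agent.Lib.MP_45a79b_co

open Finset

theorem sin_lower {n : ℝ} (hn : 7 ≤ n) : 3 ≤ n * Real.sin (Real.pi / n) := by
  have hn0 : 0 < n := by linarith
  have h1 := Real.sin_ge_sub_cube (x := Real.pi / n) (by positivity)
  have h2 := Real.pi_gt_d2
  have h3 := Real.pi_lt_d2
  have h4 : Real.pi / n ≤ 0.45 := by rw [div_le_iff₀ hn0]; linarith
  have h5 : 0 < Real.pi / n := by positivity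
  have h6 : (Real.pi / n) ^ 2 ≤ 0.45 ^ 2 := by gcongr
  have h7 : (Real.pi / n) * 0.96 ≤ Real.sin (Real.pi / n) := by nlinarith
  have h8 : n * (Real.pi / n) = Real.pi := by field_simp
  nlinarith

theorem factor_lower {d k : ℕ} (hd : 0 < d) (hk : 0 < k) (h1 : 3 * k ≤ d + 2) (h2 : d ≤ 3 * k + 2) :
    (((d : ℝ) + 3) / d) ^ k * ((((d : ℝ) + 3) ^ 2 - 4) / (3 * ((d : ℝ) + 3)))
      ≤ ((k : ℝ) + 1) * (((k : ℝ) + 1) / k) ^ k := by
  have hd' : (0 : ℝ) < d := by exact_mod_cast hd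
  have hk' : (1 : ℝ) ≤ k := by exact_mod_cast hk
  have h1' : 3 * (k : ℝ) ≤ d + 2 := by exact_mod_cast h1
  have h2' : (d : ℝ) ≤ 3 * k + 2 := by exact_mod_cast h2
  have e1 : ((k : ℝ) + 1) / k
      = (((d : ℝ) + 3) / d) * (1 + ((d : ℝ) - 3 * k) / (k * ((d : ℝ) + 3))) := by
    field_simp; ring
  have e2 : -2 ≤ ((d : ℝ) - 3 * k) / (k * ((d : ℝ) + 3)) := by
    rw [le_div_iff₀ (by positivity)]; nlinarith
  have e3 := one_add_mul_le_pow e2 k
  have e4 : 1 + (k : ℝ) * (((d : ℝ) - 3 * k) / (k * ((d : ℝ) + 3)))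
      = (2 * d + 3 - 3 * k) / ((d : ℝ) + 3) := by
    field_simp; ring
  rw [e4] at e3
  rw [e1, mul_pow, mul_left_comm]
  apply mul_le_mul_of_nonneg_left _ (by positivity)
  refine le_trans ?_ (mul_le_mul_of_nonneg_left e3 (by positivity))
  rw [← mul_div_assoc, div_le_div_iff₀ (by positivity) (by positivity)]
  have e5 : ((d : ℝ) + 3) ^ 2 - 4 ≤ 3 * (((k : ℝ) + 1) * (2 * d + 3 - 3 * k)) := by nlinarith
  nlinarith

theorem numeric {d : ℕ} (hd : 4 ≤ d) (k : Fin 3 → ℕ) (hk : ∀ r, 0 < k r) (hsum : ∑ r, k r = d)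
    (h1 : ∀ r, 3 * k r ≤ d + 2) (h2 : ∀ r, d ≤ 3 * k r + 2) :
    Real.sqrt (d * (((d : ℝ) + 3) / d) ^ (d + 1)) / (2 * Real.sin (Real.pi / ((d : ℝ) + 3)))
      < Real.sqrt (∏ r, ((k r : ℝ) + 1) * (((k r : ℝ) + 1) / k r) ^ k r) := by
  have hd' : (4 : ℝ) ≤ d := by exact_mod_cast hd
  set n : ℝ := (d : ℝ) + 3 with hn
  have hn7 : 7 ≤ n := by linarith
  have hs := sin_lower hn7
  set s := Real.sin (Real.pi / n) with hsdef
  have hs0 : 0 < s := by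
    by_contra h
    push Not at h
    nlinarith
  have hc : 0 < (n ^ 2 - 4) / (3 * n) := by
    apply div_pos <;> nlinarith
  have h3 : (n / d) ^ d * ((n ^ 2 - 4) / (3 * n)) ^ 3
      ≤ ∏ r, ((k r : ℝ) + 1) * (((k r : ℝ) + 1) / k r) ^ k r := by
    have h4 : ∏ r, (n / d) ^ k r * ((n ^ 2 - 4) / (3 * n))
        = (n / d) ^ d * ((n ^ 2 - 4) / (3 * n)) ^ 3 := by
      rw [Finset.prod_mul_distrib, Finset.prod_pow_eq_pow_sum, hsum, Finset.prod_const,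
        Finset.card_univ, Fintype.card_fin]
    rw [← h4]
    apply Finset.prod_le_prod
    · intro r _; positivity
    · intro r _
      exact factor_lower (by omega) (hk r) (h1 r) (h2 r)
  apply Real.lt_sqrt_of_sq_lt
  refine lt_of_lt_of_le ?_ h3
  rw [div_pow, Real.sq_sqrt (by positivity), pow_succ]
  have e1 : (d : ℝ) * ((n / d) ^ d * (n / d)) / (2 * s) ^ 2 = (n / d) ^ d * (n / (2 * s) ^ 2) := by
    field_simp
  rw [e1]
  apply mul_lt_mul_of_pos_left _ (by positivity)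
  rw [div_pow, div_lt_div_iff₀ (by positivity) (by positivity)]
  have e2 : 45 / 49 * n ^ 2 ≤ n ^ 2 - 4 := by nlinarith
  have e3 : (45 / 49 * n ^ 2) ^ 3 ≤ (n ^ 2 - 4) ^ 3 := by gcongr
  have e4 : 3 ^ 2 ≤ (n * s) ^ 2 := by gcongr
  have e5 : 0 < n ^ 4 := by positivity
  calc n * (3 * n) ^ 3 = n ^ 4 * 27 := by ring
    _ < n ^ 4 * ((45 / 49) ^ 3 * 4 * 3 ^ 2) := by
        apply mul_lt_mul_of_pos_left _ e5; norm_num
    _ ≤ n ^ 4 * ((45 / 49) ^ 3 * 4 * (n * s) ^ 2) := by gcongr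
    _ = (45 / 49 * n ^ 2) ^ 3 * (2 * s) ^ 2 := by ring
    _ ≤ _ := by gcongr

end Pool.Agent.Lib.MP_45a79b_co
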