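import Mathlib
import Pool.Agent.Lib.MP_45a79b_co.Faces
import Pool.Agent.Lib.MP_45a79b_co.Lower
import Pool.Agent.Lib.MP_45a79b_co.Numeric

/-! A maximal-volume inscribed polytope with at most `d + 3` vertices, `d` even, is not cyclic. -/

namespace Pool.Agent.Lib.MP_45a79b_co

open Finset MeasureTheory

/-- Equal up to a positive factor. -/
def PosRel (u v : ℝ) : Prop := ∃ c, 0 < c ∧ u = c * v

theorem PosRel.refl (u : ℝ) : PosRel u u := ⟨1, one_pos, (one_mul u).symm⟩

theorem PosRel.of_eq {u v a b : ℝ} (ha : 0 < a) (hb : 0 < b) (h : a * u = b * v) : PosRel u v :=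
  ⟨b / a, div_pos hb ha, by field_simp; linarith⟩

theorem PosRel.symm {u v : ℝ} (h : PosRel u v) : PosRel v u := by
  obtain ⟨c, hc, h⟩ := h
  exact PosRel.of_eq hc one_pos (by linarith)

theorem PosRel.trans {u v w : ℝ} (h : PosRel u v) (h' : PosRel v w) : PosRel u w := by
  obtain ⟨c, hc, rfl⟩ := h
  obtain ⟨c', hc', rfl⟩ := h'
  exact ⟨c * c', mul_pos hc hc', by ring⟩

theorem sign_rel (m : ℕ) (x y : ℕ → ℝ)
    (h : ∀ a b c : ℕ, a < b → b < c → c < 2 * m + 1 → Odd (a + b) → Odd (b + c) →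
      ∃ α β γ : ℝ, 0 < α ∧ 0 < β ∧ 0 < γ ∧ α * x a + β * x b + γ * x c = 0 ∧
        α * y a + β * y b + γ * y c = 0) (a b : ℕ) (hab : a < b) (hb : b < 2 * m + 1) :
    (Odd (a + b) → PosRel (x a * y b - y a * x b) (x 0 * y 1 - y 0 * x 1)) ∧
    (Even (a + b) → PosRel (x b * y a - y b * x a) (x 0 * y 1 - y 0 * x 1)) := by
  have htri : ∀ a b c : ℕ, a < b → b < c → c < 2 * m + 1 → Odd (a + b) → Odd (b + c) →
      PosRel (x a * y b - y a * x b) (x b * y c - y b * x c) ∧
      PosRel (x c * y a - y c * x a) (x a * y b - y a * x b) := by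
    intro a b c h1 h2 h3 h4 h5
    obtain ⟨α, β, γ, hα, hβ, hγ, e1, e2⟩ := h a b c h1 h2 h3 h4 h5
    exact ⟨PosRel.of_eq hα hγ (by linear_combination y b * e1 - x b * e2),
      PosRel.of_eq hγ hβ (by linear_combination y a * e1 - x a * e2)⟩
  have hcons : ∀ a : ℕ, a + 1 < 2 * m + 1 →
      PosRel (x a * y (a + 1) - y a * x (a + 1)) (x 0 * y 1 - y 0 * x 1) := by
    intro a
    induction a with
    | zero => intro _; exact PosRel.refl _
    | succ a ih =>
      intro ha
      exact (htri a (a + 1) (a + 1 + 1) (by omega) (by omega) ha ⟨a, by ring⟩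
        ⟨a + 1, by ring⟩).1.symm.trans (ih (by omega))
  constructor
  · intro hodd
    by_cases hb' : b + 1 < 2 * m + 1
    · exact (htri a b (b + 1) hab (by omega) hb' hodd ⟨b, by ring⟩).1.trans (hcons b hb')
    · obtain ⟨u, hu⟩ := hodd
      obtain ⟨a', rfl⟩ : ∃ a', a = a' + 1 := ⟨a - 1, by omega⟩
      exact (htri a' (a' + 1) b (by omega) hab hb ⟨a', by ring⟩ ⟨u, hu⟩).1.symm.trans
        (hcons a' (by omega))
  · rintro ⟨u, hu⟩
    exact (htri a (a + 1) b (by omega) (by omega) hb ⟨a, by ring⟩ ⟨u, by omega⟩).2.trans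
      (hcons a (by omega))

theorem sign_zmod (m : ℕ) (x y : ℕ → ℝ) (ε : ℝ)
    (h : ∀ a b : ℕ, a < b → b < 2 * m + 1 →
      (Odd (a + b) → PosRel (x a * y b - y a * x b) ε) ∧
      (Even (a + b) → PosRel (x b * y a - y b * x a) ε))
    (j : ZMod (2 * m + 1)) (t : ℕ) (h1 : 1 ≤ t) (h2 : t ≤ m) :
    PosRel (x (-2 * j).val * y (-2 * (j + t)).val - y (-2 * j).val * x (-2 * (j + t)).val) ε := by
  set b := (-2 * (j + t)).val with hb
  have hb2 : b < 2 * m + 1 := ZMod.val_lt _
  have h3 : (-2 * j).val = (b + 2 * t) % (2 * m + 1) := by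
    rw [← ZMod.val_natCast]
    congr 1
    rw [hb, Nat.cast_add, ZMod.natCast_zmod_val]
    push_cast; ring
  by_cases h4 : b + 2 * t < 2 * m + 1
  · rw [h3, Nat.mod_eq_of_lt h4]
    exact (h b (b + 2 * t) (by omega) h4).2 ⟨b + t, by ring⟩
  · have h5 : (b + 2 * t) % (2 * m + 1) = b + 2 * t - (2 * m + 1) := by
      rw [Nat.mod_eq_sub_mod (by omega), Nat.mod_eq_of_lt (by omega)]
    rw [h3, h5]
    exact (h _ b (by omega) hb2).1 ⟨b + t - m - 1, by omega⟩

theorem exists_kernel {ι : Type*} [Fintype ι] {d : ℕ} (hcard : Fintype.card ι = d + 3)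
    (p : ι → EuclideanSpace ℝ (Fin d)) :
    ∃ x y : ι → ℝ, ∑ l, x l = 0 ∧ ∑ l, y l = 0 ∧ ∑ l, x l • p l = 0 ∧ ∑ l, y l • p l = 0 ∧
      ∑ l, x l ^ 2 = 1 ∧ ∑ l, y l ^ 2 = 1 ∧ ∑ l, x l * y l = 0 := by
  classical
  set Ψ : EuclideanSpace ℝ ι →ₗ[ℝ] ℝ × EuclideanSpace ℝ (Fin d) :=
    { toFun := fun x => (∑ l, x l, ∑ l, x l • p l)
      map_add' := fun x y => by simp [Finset.sum_add_distrib, add_smul]
      map_smul' := fun c x => by simp [Finset.mul_sum, Finset.smul_sum, mul_smul] } with hΨ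
  have h1 := Ψ.finrank_range_add_finrank_ker
  have h2 := Submodule.finrank_le (LinearMap.range Ψ)
  simp only [Module.finrank_prod, Module.finrank_self, finrank_euclideanSpace, Fintype.card_fin,
    hcard] at h1 h2
  have h3 : 2 ≤ Module.finrank ℝ (LinearMap.ker Ψ) := by omega
  set B := stdOrthonormalBasis ℝ (LinearMap.ker Ψ) with hB
  set i0 : Fin (Module.finrank ℝ (LinearMap.ker Ψ)) := ⟨0, by omega⟩ with hi0
  set i1 : Fin (Module.finrank ℝ (LinearMap.ker Ψ)) := ⟨1, by omega⟩ with hi1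
  have hker : ∀ i, ∑ l, (B i : EuclideanSpace ℝ ι) l = 0 ∧
      ∑ l, (B i : EuclideanSpace ℝ ι) l • p l = 0 := fun i => by
    have := LinearMap.mem_ker.1 (B i).2
    exact Prod.ext_iff.1 this
  have hnorm : ∀ i, ∑ l, (B i : EuclideanSpace ℝ ι) l ^ 2 = 1 := fun i => by
    have h := B.orthonormal.1 i
    have h' : ‖(B i : EuclideanSpace ℝ ι)‖ = 1 := h
    rw [← EuclideanSpace.real_norm_sq_eq, h']; norm_num
  have horth : inner ℝ (B i1 : EuclideanSpace ℝ ι) (B i0 : EuclideanSpace ℝ ι) = 0 :=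
    B.orthonormal.2 (by simp [hi0, hi1] : i1 ≠ i0)
  refine ⟨fun l => (B i0 : EuclideanSpace ℝ ι) l, fun l => (B i1 : EuclideanSpace ℝ ι) l,
    (hker i0).1, (hker i1).1, (hker i0).2, (hker i1).2, hnorm i0, hnorm i1, ?_⟩
  simpa [PiLp.inner_apply] using horth

theorem volume_transfer {ι : Type*} [Fintype ι] {d : ℕ} (p : ι → EuclideanSpace ℝ (Fin d)) :
    volume (convexHull ℝ (Set.range p))
      = volume (convexHull ℝ (Set.range fun l => (p l).ofLp)) := by
  have h1 : convexHull ℝ (Set.range fun l => (p l).ofLp)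
      = (WithLp.toLp 2) ⁻¹' convexHull ℝ (Set.range p) := by
    have h2 := (WithLp.linearEquiv 2 ℝ (Fin d → ℝ)).toLinearMap.image_convexHull (Set.range p)
    rw [← Set.range_comp] at h2
    refine Eq.trans h2.symm ?_
    ext z
    constructor
    · rintro ⟨w, hw, rfl⟩; exact hw
    · intro hz; exact ⟨_, hz, rfl⟩
  rw [h1, (PiLp.volume_preserving_toLp (Fin d)).measure_preimage]
  exact ((Set.finite_range p).isCompact_convexHull ℝ).measurableSet.nullMeasurableSet

theorem sphere_exposed {ι : Type*} [Fintype ι] {d : ℕ} (p : ι → EuclideanSpace ℝ (Fin d))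
    (hp : ∀ l, ‖p l‖ = 1) (i : ι) : IsExposed ℝ (convexHull ℝ (Set.range p)) {p i} := by
  refine exposed_single p i (innerSL ℝ (p i)) fun j hj => ?_
  simp only [innerSL_apply_apply]
  rw [real_inner_self_eq_norm_sq, hp i, one_pow]
  exact (inner_lt_one_iff_real_of_norm_eq_one (hp i) (hp j)).2 (Ne.symm hj)

theorem cyclic_upper (m : ℕ) {d : ℕ} (hd : 0 < d) (hdm : 2 * m + 1 = d + 3)
    (p : Fin (d + 3) → EuclideanSpace ℝ (Fin d)) (hp : ∀ l, ‖p l‖ = 1)
    (hface : ∀ a b c : Fin (d + 3), a < b → b < c → Odd (a.val + b.val) → Odd (b.val + c.val) →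
      ∃ G, IsExposed ℝ (convexHull ℝ (Set.range p)) G ∧
        ∀ j, p j ∈ G ↔ j ∉ ({a, b, c} : Finset _)) :
    volume (convexHull ℝ (Set.range p)) ≤
      ENNReal.ofReal (Real.sqrt (d * (((d : ℝ) + 3) / d) ^ (d + 1))
        / (2 * Real.sin (Real.pi / ((d : ℝ) + 3)))) * volume (stdS d) := by
  obtain ⟨x, y, hx0, hy0, hx, hy, hx2, hy2, hxy⟩ := exists_kernel (Fintype.card_fin (d + 3)) p
  have hrel : ∀ x y : Fin (d + 3) → ℝ, ∑ l, x l = 0 → ∑ l, y l = 0 → ∑ l, x l • p l = 0 →
      ∑ l, y l • p l = 0 → ∀ a b : ℕ, a < b → b < 2 * m + 1 →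
      (Odd (a + b) → PosRel (x (Fin.ofNat _ a) * y (Fin.ofNat _ b)
        - y (Fin.ofNat _ a) * x (Fin.ofNat _ b)) (x 0 * y 1 - y 0 * x 1)) ∧
      (Even (a + b) → PosRel (x (Fin.ofNat _ b) * y (Fin.ofNat _ a)
        - y (Fin.ofNat _ b) * x (Fin.ofNat _ a)) (x 0 * y 1 - y 0 * x 1)) := by
    intro x y hx0 hy0 hx hy
    refine sign_rel m (fun a => x (Fin.ofNat _ a)) (fun a => y (Fin.ofNat _ a)) ?_
    intro a b c hab hbc hc h1 h2
    have ea : Fin.ofNat (d + 3) a = ⟨a, by omega⟩ := Fin.ext (Nat.mod_eq_of_lt (by omega))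
    have eb : Fin.ofNat (d + 3) b = ⟨b, by omega⟩ := Fin.ext (Nat.mod_eq_of_lt (by omega))
    have ec : Fin.ofNat (d + 3) c = ⟨c, by omega⟩ := Fin.ext (Nat.mod_eq_of_lt (by omega))
    simp only [ea, eb, ec]
    set A : Fin (d + 3) := ⟨a, by omega⟩ with hA
    set B : Fin (d + 3) := ⟨b, by omega⟩ with hB
    set C : Fin (d + 3) := ⟨c, by omega⟩ with hC
    have hAB : A < B := hab
    have hBC : B < C := hbc
    have hAC : A < C := hAB.trans hBC
    obtain ⟨G, hG, hGm⟩ := hface A B C hAB hBC h1 h2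
    have h3 : ({A, B, C} : Finset (Fin (d + 3))).card = 3 :=
      Finset.card_eq_three.2 ⟨A, B, C, hAB.ne, hAC.ne, hBC.ne, rfl⟩
    obtain ⟨i₀, hi₀⟩ : ∃ i₀, i₀ ∉ ({A, B, C} : Finset (Fin (d + 3))) := by
      by_contra hcon
      push Not at hcon
      have := Finset.eq_univ_iff_forall.2 hcon
      rw [this, Finset.card_univ, Fintype.card_fin] at h3
      omega
    obtain ⟨α, hα0, hαpos, hα⟩ := coface p G hG i₀ ((hGm i₀).2 hi₀)
    have hsum : ∀ z : Fin (d + 3) → ℝ,
        ∑ i, α i * z i = α A * z A + α B * z B + α C * z C := by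
      intro z
      rw [← Finset.sum_subset (Finset.subset_univ ({A, B, C} : Finset (Fin (d + 3))))
        (fun i _ hi => by rw [hα0 i ((hGm i).2 hi), zero_mul]),
        Finset.sum_insert (by simp [hAB.ne, hAC.ne]), Finset.sum_insert (by simp [hBC.ne]),
        Finset.sum_singleton, add_assoc]
    refine ⟨α A, α B, α C, hαpos A fun h => (hGm A).1 h (by simp),
      hαpos B fun h => (hGm B).1 h (by simp), hαpos C fun h => (hGm C).1 h (by simp), ?_, ?_⟩
    · rw [← hsum]; exact hα x hx0 hx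
    · rw [← hsum]; exact hα y hy0 hy
  have hofNat : ∀ a : Fin (d + 3), Fin.ofNat (d + 3) a.val = a :=
    fun a => Fin.ext (Nat.mod_eq_of_lt a.2)
  have hne : x 0 * y 1 - y 0 * x 1 ≠ 0 := by
    intro h0
    have h1 : ∀ a b : Fin (d + 3), a < b → x a * y b = y a * x b := by
      intro a b hab
      have h2 := hrel x y hx0 hy0 hx hy a.val b.val hab (by have := b.2; omega)
      rw [hofNat, hofNat, h0] at h2
      rcases Nat.even_or_odd (a.val + b.val) with h3 | h3
      · obtain ⟨c, _, hc⟩ := h2.2 h3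
        linarith
      · obtain ⟨c, _, hc⟩ := h2.1 h3
        linarith
    have h2 : ∀ a b : Fin (d + 3), x a * y b = y a * x b := by
      intro a b
      rcases lt_trichotomy a b with h | rfl | h
      · exact h1 a b h
      · ring
      · linarith [h1 b a h]
    have h3 : ∀ b, y b = 0 := by
      intro b
      calc y b = ∑ a, x a ^ 2 * y b := by rw [← Finset.sum_mul, hx2, one_mul]
        _ = ∑ a, x a * y a * x b :=
          Finset.sum_congr rfl fun a _ => by linear_combination x a * h2 a b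
        _ = 0 := by rw [← Finset.sum_mul, hxy, zero_mul]
    simp [h3] at hy2
  -- the enumeration of the points in Gale order
  have hunit : (-2 : ZMod (2 * m + 1)) * m = 1 := by
    have : ((2 * m + 1 : ℕ) : ZMod (2 * m + 1)) = 0 := ZMod.natCast_self _
    push_cast at this
    linear_combination -this
  have hbij : Function.Bijective
      fun j : ZMod (2 * m + 1) => Fin.ofNat (d + 3) (-2 * j).val := by
    rw [Fintype.bijective_iff_injective_and_card]
    refine ⟨fun i j h => ?_, by rw [ZMod.card, Fintype.card_fin, hdm]⟩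
    have h1 := congrArg Fin.val h
    have hi := ZMod.val_lt (-2 * i)
    have hj := ZMod.val_lt (-2 * j)
    simp only [Fin.val_ofNat] at h1
    rw [Nat.mod_eq_of_lt (by omega), Nat.mod_eq_of_lt (by omega)] at h1
    have h2 := ZMod.val_injective _ h1
    linear_combination (m : ZMod (2 * m + 1)) * h2 + (j - i) * hunit
  set e := Equiv.ofBijective _ hbij with he
  have main : ∀ x y : Fin (d + 3) → ℝ, ∑ l, x l = 0 → ∑ l, y l = 0 → ∑ l, x l • p l = 0 →
      ∑ l, y l • p l = 0 → ∑ l, x l ^ 2 = 1 → ∑ l, y l ^ 2 = 1 → ∑ l, x l * y l = 0 →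
      0 < x 0 * y 1 - y 0 * x 1 → volume (convexHull ℝ (Set.range p)) ≤
      ENNReal.ofReal (Real.sqrt (d * (((d : ℝ) + 3) / d) ^ (d + 1))
        / (2 * Real.sin (Real.pi / ((d : ℝ) + 3)))) * volume (stdS d) := by
    intro x y hx0 hy0 hx hy hx2 hy2 hxy hpos
    have hr : Set.range p = Set.range fun j => p (e j) :=
      (e.surjective.range_comp p).symm
    rw [hr, volume_transfer]
    refine volume_upper m hd hdm _ (fun l => ?_) (fun j => x (e j)) (fun j => y (e j))
      ((e.sum_comp x).trans hx0) ((e.sum_comp y).trans hy0) (fun s => ?_) (fun s => ?_)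
      ((e.sum_comp fun l => x l ^ 2).trans hx2) ((e.sum_comp fun l => y l ^ 2).trans hy2)
      ((e.sum_comp fun l => x l * y l).trans hxy) (fun j t h1 h2 => ?_)
    · rw [← EuclideanSpace.real_norm_sq_eq, hp]; norm_num
    · rw [e.sum_comp fun l => x l * (p l).ofLp s]
      simpa using congrArg (fun z : EuclideanSpace ℝ (Fin d) => z s) hx
    · rw [e.sum_comp fun l => y l * (p l).ofLp s]
      simpa using congrArg (fun z : EuclideanSpace ℝ (Fin d) => z s) hy
    · obtain ⟨c, hc, h⟩ := sign_zmod m (fun a => x (Fin.ofNat _ a)) (fun a => y (Fin.ofNat _ a)) _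
        (hrel x y hx0 hy0 hx hy) j t h1 h2
      exact lt_of_lt_of_eq (mul_pos hc hpos) h.symm
  rcases lt_or_gt_of_ne hne with h | h
  · exact main y x hy0 hx0 hy hx hy2 hx2 (by simpa [mul_comm] using hxy) (by linarith)
  · exact main x y hx0 hy0 hx hy hx2 hy2 hxy h

theorem exists_competitor {d : ℕ} (hd : 4 ≤ d) :
    ∃ Y : Finset (EuclideanSpace ℝ (Fin d)), (∀ y ∈ Y, ‖y‖ = 1) ∧ Y.card ≤ d + 3 ∧
      ENNReal.ofReal (Real.sqrt (d * (((d : ℝ) + 3) / d) ^ (d + 1))
        / (2 * Real.sin (Real.pi / ((d : ℝ) + 3)))) * volume (stdS d)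
        < volume (convexHull ℝ (Y : Set (EuclideanSpace ℝ (Fin d)))) := by
  classical
  set β : Fin d → Fin 3 := fun s => ⟨s.val % 3, Nat.mod_lt _ (by norm_num)⟩ with hβ
  have hcount : ∀ r : Fin 3, (Finset.univ.filter fun s => β s = r).card
      = d / 3 + if r.val < d % 3 then 1 else 0 := by
    intro r
    have h1 := Nat.count_modEq_card d (by norm_num : 0 < 3) r.val
    rw [Nat.mod_eq_of_lt r.2, Nat.count_eq_card_filter_range] at h1
    rw [← h1]
    apply Finset.card_bij (fun s _ => s.val)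
    · intro s hs
      simp only [hβ, mem_filter, mem_univ, true_and, Fin.ext_iff] at hs
      simp only [mem_filter, mem_range, Nat.ModEq, Nat.mod_eq_of_lt r.2]
      exact ⟨s.2, hs⟩
    · intro s _ t _ h; exact Fin.ext h
    · intro a ha
      simp only [mem_filter, mem_range, Nat.ModEq, Nat.mod_eq_of_lt r.2] at ha
      exact ⟨⟨a, ha.1⟩, by simp [hβ, Fin.ext_iff, ha.2], rfl⟩
  have hpos : ∀ r, 0 < (Finset.univ.filter fun s => β s = r).card := by
    intro r; rw [hcount]; omega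
  obtain ⟨q, hq, hvol⟩ := volume_lower β hpos
  refine ⟨Finset.univ.image fun a => WithLp.toLp 2 (q a), ?_, ?_, ?_⟩
  · intro y hy
    obtain ⟨a, _, rfl⟩ := Finset.mem_image.1 hy
    have : ‖(WithLp.toLp 2 (q a) : EuclideanSpace ℝ (Fin d))‖ ^ 2 = 1 := by
      rw [EuclideanSpace.real_norm_sq_eq]; exact hq a
    nlinarith [norm_nonneg (WithLp.toLp 2 (q a) : EuclideanSpace ℝ (Fin d))]
  · exact Finset.card_image_le.trans (by simp)
  · rw [Finset.coe_image, Finset.coe_univ, Set.image_univ, volume_transfer]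
    refine lt_of_lt_of_le ?_ hvol
    apply ENNReal.mul_lt_mul_left volume_stdS_pos.ne' volume_stdS_ne_top
    have h := numeric hd (fun r => (Finset.univ.filter fun s => β s = r).card) hpos
      (by
        rw [← Finset.card_eq_sum_card_fiberwise (fun _ _ => Finset.mem_univ _)]
        simp)
      (fun r => by simp only [hcount]; split_ifs <;> omega)
      (fun r => by simp only [hcount]; split_ifs <;> omega)
    refine (ENNReal.ofReal_lt_ofReal_iff ?_).2 h
    apply Real.sqrt_pos.2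
    exact Finset.prod_pos fun r _ => by have := hpos r; positivity

theorem exists_bigger {d : ℕ} (hd : 2 ≤ d) (X : Finset (EuclideanSpace ℝ (Fin d)))
    (hX : ∀ x ∈ X, ‖x‖ = 1)
    (hpos : 0 < volume (convexHull ℝ (X : Set (EuclideanSpace ℝ (Fin d))))) :
    ∃ Y : Finset (EuclideanSpace ℝ (Fin d)), (∀ y ∈ Y, ‖y‖ = 1) ∧ Y.card ≤ X.card + 1 ∧
      volume (convexHull ℝ (X : Set (EuclideanSpace ℝ (Fin d))))
        < volume (convexHull ℝ (Y : Set (EuclideanSpace ℝ (Fin d)))) := by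
  classical
  have hrank : 1 < Module.rank ℝ (EuclideanSpace ℝ (Fin d)) := by
    rw [← Module.finrank_eq_rank, finrank_euclideanSpace, Fintype.card_fin]
    exact_mod_cast hd
  have hinf : (Metric.sphere (0 : EuclideanSpace ℝ (Fin d)) 1).Infinite := by
    apply (isPreconnected_sphere hrank 0 1).infinite_of_nontrivial
    refine ⟨EuclideanSpace.single ⟨0, by omega⟩ 1, by simp,
      EuclideanSpace.single ⟨1, by omega⟩ 1, by simp, fun h => ?_⟩
    have := congrArg (fun z : EuclideanSpace ℝ (Fin d) => z ⟨0, by omega⟩) h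
    simp at this
  obtain ⟨q, hq1, hq2⟩ := hinf.exists_notMem_finset X
  have hq : ‖q‖ = 1 := by simpa using hq1
  set P := convexHull ℝ (X : Set (EuclideanSpace ℝ (Fin d))) with hP
  set Q := convexHull ℝ ((insert q X : Finset _) : Set (EuclideanSpace ℝ (Fin d))) with hQ
  have hPQ : P ⊆ Q := convexHull_mono (by simp)
  have hPc : IsCompact P := X.finite_toSet.isCompact_convexHull ℝ
  have hqP : q ∉ P := by
    intro h
    obtain ⟨x, hx, hx'⟩ := ((innerSL ℝ q).toLinearMap.convexOn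
      convex_univ).exists_ge_of_mem_convexHull (Set.subset_univ _) h
    have h1 : inner ℝ q q ≤ inner ℝ q x := hx'
    rw [real_inner_self_eq_norm_sq, hq] at h1
    have h2 := (inner_lt_one_iff_real_of_norm_eq_one hq (hX x hx)).2
      (fun h' => hq2 (h' ▸ hx))
    linarith
  have hint : (interior P).Nonempty := by
    by_contra h
    rw [Set.not_nonempty_iff_eq_empty] at h
    have h1 : P ⊆ frontier P := by
      rw [frontier, h, Set.sdiff_empty]; exact subset_closure
    have h2 := (convex_convexHull ℝ (X : Set (EuclideanSpace ℝ (Fin d)))).addHaar_frontier volume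
    exact hpos.ne' (measure_mono_null h1 h2)
  have hqc : q ∈ closure (interior Q) := by
    rw [(convex_convexHull ℝ _).closure_interior_eq_closure_of_nonempty_interior
      (hint.mono (interior_mono hPQ))]
    exact subset_closure (subset_convexHull ℝ _ (by simp))
  have hU : (Pᶜ ∩ interior Q).Nonempty := mem_closure_iff.1 hqc _ hPc.isClosed.isOpen_compl hqP
  have hUo : IsOpen (Pᶜ ∩ interior Q) := hPc.isClosed.isOpen_compl.inter isOpen_interior
  refine ⟨insert q X, ?_, Finset.card_insert_le _ _, ?_⟩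
  · intro y hy
    rcases Finset.mem_insert.1 hy with rfl | hy
    · exact hq
    · exact hX y hy
  · have h1 : volume (P ∪ (Pᶜ ∩ interior Q)) = volume P + volume (Pᶜ ∩ interior Q) :=
      measure_union (Set.disjoint_left.2 fun z hz hz' => hz'.1 hz) hUo.measurableSet
    calc volume P < volume P + volume (Pᶜ ∩ interior Q) :=
          ENNReal.lt_add_right hPc.measure_lt_top.ne (hUo.measure_pos volume hU).ne'
      _ = _ := h1.symm
      _ ≤ volume Q := measure_mono (Set.union_subset hPQ fun z hz => interior_subset hz.2)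

theorem not_cyclic {d : ℕ} (hev : Even d) (hd : 4 ≤ d) (X : Finset (EuclideanSpace ℝ (Fin d)))
    (hX : ∀ x ∈ X, ‖x‖ = 1) (hcard : X.card ≤ d + 3)
    (hmax : ∀ Y : Finset (EuclideanSpace ℝ (Fin d)), (∀ y ∈ Y, ‖y‖ = 1) → Y.card ≤ d + 3 →
      volume (convexHull ℝ (Y : Set (EuclideanSpace ℝ (Fin d))))
        ≤ volume (convexHull ℝ (X : Set (EuclideanSpace ℝ (Fin d)))))
    (T : Finset ℝ)
    (Φ : {F // IsExposed ℝ (convexHull ℝ (X : Set (EuclideanSpace ℝ (Fin d)))) F} ≃o
      {F // IsExposed ℝ (convexHull ℝ ((fun t : ℝ => (WithLp.toLp 2 fun i : Fin d => t ^ (i.val + 1) :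
        EuclideanSpace ℝ (Fin d))) '' (T : Set ℝ))) F}) : False := by
  obtain ⟨Y, hY1, hY2, hY3⟩ := exists_competitor hd
  have hlt := hY3.trans_le (hmax Y hY1 hY2)
  have hcard' : X.card = d + 3 := by
    by_contra h
    obtain ⟨Z, hZ1, hZ2, hZ3⟩ := exists_bigger (by omega) X hX (lt_of_le_of_lt bot_le hlt)
    exact absurd (hmax Z hZ1 (by omega)) (not_le.2 hZ3)
  have hXr : (X : Set (EuclideanSpace ℝ (Fin d))) = Set.range fun x : X => x.1 := by
    ext z; simp
  set t := T.orderEmbOfFin rfl with ht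
  have hTr : (fun t : ℝ => (WithLp.toLp 2 fun i : Fin d => t ^ (i.val + 1) :
      EuclideanSpace ℝ (Fin d))) '' (T : Set ℝ) = Set.range fun j =>
        (WithLp.toLp 2 fun i : Fin d => t j ^ (i.val + 1) : EuclideanSpace ℝ (Fin d)) := by
    rw [← Finset.range_orderEmbOfFin T rfl, ← Set.range_comp]; rfl
  revert Φ hlt
  rw [hXr, hTr]
  intro Φ hlt
  have hts : StrictMono t := t.strictMono
  clear_value t
  obtain ⟨φ, hφ⟩ := vertex_bijection _ ((moment_injective (by omega)).comp hts.injective)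
    (moment_exposed (by omega) t) (fun x : X => x.1) Subtype.val_injective
    (sphere_exposed _ fun x => hX x.1 x.2) Φ.symm
  have hTc : T.card = d + 3 := by
    have := Fintype.card_congr φ
    rwa [Fintype.card_fin, Fintype.card_coe, hcard'] at this
  clear hTr ht
  generalize T.card = n at t hts Φ φ hφ hTc
  subst hTc
  obtain ⟨k, hk⟩ := hev
  have hr : (Set.range fun x : X => x.1) = Set.range fun j => (φ j).1 :=
    (φ.surjective.range_comp fun x : X => x.1).symm
  have hup := cyclic_upper (k + 1) (by omega) (by omega) (fun j => (φ j).1)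
    (fun j => hX _ (φ j).2) (fun a b c hab hbc h1 h2 => by
      obtain ⟨F, hF, hFm⟩ := gale_face (by omega) t hts a b c hab hbc h1 h2
      refine ⟨(Φ.symm ⟨F, hF⟩).1, hr ▸ (Φ.symm ⟨F, hF⟩).2, fun j => ?_⟩
      rw [← hFm j]
      exact (hφ ⟨F, hF⟩ j).symm)
  rw [← hr] at hup
  exact absurd hup (not_le.2 hlt)

end Pool.Agent.Lib.MP_45a79b_co
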